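import Pool.Agent.H303.DS.Emb
import Pool.Graph.R_pool_sql_team_seeded_64922ed1.X187.NSC.Min

/-!
Regularity in compact classes of subspaces: uniform bounds and minimal blow-up pairs.
-/

set_option autoImplicit false

open MeasureTheory Set Filter Topology
open scoped InnerProductSpace

namespace Pool.Agent.H303.DC

open H772R2.NSR (Frame)
open Pool.Agent.W795.TQ
open Pool.Agent.X187.NSC hiding fam_close weak_limit core open_ultra
open Pool.Agent.H303.DS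

variable {H K : Type} [NormedAddCommGroup H] [InnerProductSpace ℝ H] [CompleteSpace H]
  [NormedAddCommGroup K] [InnerProductSpace ℝ K] [CompleteSpace K]
  {W0 : Submodule ℝ (H × K)} {m : H → K} {C c ν T : ℝ} {α : Type}
  {Wf : α → Submodule ℝ (H × K)}

/-- Uniform bounds in a compact class. -/
theorem unif_abs [TopologicalSpace.SeparableSpace K] (Fr0 : Frame W0 m C) (Un0 : Univ W0 m c)
    (hν : 0 < ν) (hT : 0 < T)
    (hcomp : ∀ R : ℝ, TotallyBounded {v : H | ∃ z, (v, z) ∈ W0 ∧ ‖z‖ ≤ R})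
    (hle : ∀ a, Wf a ≤ W0) (hcl : ∀ a, IsClosed (Wf a : Set (H × K)))
    (hcpt : ∀ a : ℕ → α, ∃ φ : ℕ → ℕ, StrictMono φ ∧ ∃ b, MosS (fun n => Wf (a (φ n))) (Wf b))
    {R : ℝ} (hR0 : 0 ≤ R)
    (Q : ∀ (a : α) (d : Dat H K), Adm (Wf a) m ν T d → d.size T ≤ R → Good (Wf a) m ν T d) :
    ∃ R' : ℝ, R < R' ∧ ∃ L : ℝ, ∀ a, RegB (Wf a) m ν T R' L := by
  by_contra hcon
  push Not at hcon
  have hP : ∀ k : ℕ, ∃ a, ¬ RegB (Wf a) m ν T (R + 1 / ((k : ℝ) + 1)) k := fun k =>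
    hcon (R + 1 / ((k : ℝ) + 1)) (by
      have : (0 : ℝ) < 1 / ((k : ℝ) + 1) := by positivity
      linarith) k
  choose a ha using hP
  obtain ⟨φ, hφ, b, M⟩ := hcpt a
  obtain ⟨R', hR', L, n0, h⟩ := main_abs Fr0 Un0 (hle b) (hcl b) hν hT hcomp
    (fun n => hle (a (φ n))) (fun n => hcl _) M hR0 (Q b)
  have h1 : ∀ᶠ n : ℕ in atTop, 1 / ((φ n : ℝ) + 1) < R' - R := by
    have h2 : Tendsto (fun n : ℕ => 1 / ((φ n : ℝ) + 1)) atTop (𝓝 0) :=
      (tendsto_one_div_add_atTop_nhds_zero_nat (𝕜 := ℝ)).comp hφ.tendsto_atTop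
    exact h2.eventually_lt_const (by linarith)
  have h2 : ∀ᶠ n : ℕ in atTop, L ≤ φ n :=
    (tendsto_natCast_atTop_atTop.comp hφ.tendsto_atTop).eventually_ge_atTop L
  obtain ⟨n, ⟨h3, h4⟩, h5⟩ := ((h1.and h2).and (eventually_ge_atTop n0)).exists
  refine ha (φ n) fun d hd hs => ?_
  obtain ⟨u, u1, z, z1, k1, k2, k3⟩ := h n h5 d hd (hs.trans (by linarith))
  exact ⟨u, u1, z, z1, k1, k2, fun t ht => (k3 t ht).trans h4⟩

omit [CompleteSpace H] [CompleteSpace K] in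
theorem RegB.mono {W : Submodule ℝ (H × K)} {R R' L : ℝ} (h : RegB W m ν T R' L) (hR : R ≤ R') :
    RegB W m ν T R L := fun d hd hs => h d hd (hs.trans hR)

/-- Uniform bounds for all data, or minimal blow-up pairs. -/
theorem dich_abs [TopologicalSpace.SeparableSpace K] (Fr0 : Frame W0 m C) (Un0 : Univ W0 m c)
    (hν : 0 < ν) (hT : 0 < T)
    (hcomp : ∀ R : ℝ, TotallyBounded {v : H | ∃ z, (v, z) ∈ W0 ∧ ‖z‖ ≤ R})
    (hle : ∀ a, Wf a ≤ W0) (hcl : ∀ a, IsClosed (Wf a : Set (H × K)))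
    (hcpt : ∀ a : ℕ → α, ∃ φ : ℕ → ℕ, StrictMono φ ∧ ∃ b, MosS (fun n => Wf (a (φ n))) (Wf b)) :
    (∀ R : ℝ, ∃ L : ℝ, ∀ a, RegB (Wf a) m ν T R L) ∨
    ∃ ρ : ℝ, 0 < ρ ∧ (∀ R : ℝ, R < ρ → ∃ L : ℝ, ∀ a, RegB (Wf a) m ν T R L) ∧
      (∃ (a : α) (d : Dat H K), Adm (Wf a) m ν T d ∧ ¬ Good (Wf a) m ν T d ∧ d.size T = ρ) ∧
      ∀ (a : ℕ → α) (d : ℕ → Dat H K), (∀ n, Adm (Wf (a n)) m ν T (d n)) →
        (∀ n, ¬ Good (Wf (a n)) m ν T (d n)) → Tendsto (fun n => (d n).size T) atTop (𝓝 ρ) →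
        ∃ (φ : ℕ → ℕ) (b : α) (e : Dat H K), StrictMono φ ∧
          MosS (fun n => Wf (a (φ n))) (Wf b) ∧ Adm (Wf b) m ν T e ∧ ¬ Good (Wf b) m ν T e ∧
          e.size T = ρ ∧ Tendsto (fun n => (d (φ n)).dsq T e) atTop (𝓝 0) := by
  have Fr : ∀ a, Frame (Wf a) m C := fun a => frame_sub Fr0 (hle a) (hcl a)
  set S : Set ℝ := {R | ∀ (a : α) (d : Dat H K), Adm (Wf a) m ν T d → d.size T ≤ R →
    Good (Wf a) m ν T d} with hS
  have hdown : ∀ R ∈ S, ∀ R' ≤ R, R' ∈ S := fun R hR R' h a d hd hs => hR a d hd (hs.trans h)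
  have h0 : (0 : ℝ) ∈ S := fun a d hd hs => zero_good (Fr a) hT hd hs
  have hun : ∀ R ∈ S, 0 ≤ R → ∃ R' : ℝ, R < R' ∧ ∃ L : ℝ, ∀ a, RegB (Wf a) m ν T R' L :=
    fun R hR hR0 => unif_abs Fr0 Un0 hν hT hcomp hle hcl hcpt hR0 hR
  have hreg : ∀ R L : ℝ, (∀ a, RegB (Wf a) m ν T R L) → R ∈ S := fun R L h a d hd hs => by
    obtain ⟨u, u1, z, z1, k1, k2, -⟩ := h a d hd hs
    exact ⟨u, u1, z, z1, k1, k2⟩
  have hbd : ∀ R ∈ S, ∃ L : ℝ, ∀ a, RegB (Wf a) m ν T R L := by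
    intro R hR
    rcases le_total 0 R with h | h
    · obtain ⟨R', hR', L, hL⟩ := hun R hR h
      exact ⟨L, fun a => RegB.mono (hL a) hR'.le⟩
    · obtain ⟨R', hR', L, hL⟩ := hun 0 h0 le_rfl
      exact ⟨L, fun a => RegB.mono (hL a) (h.trans hR'.le)⟩
  by_cases hall : ∀ R, R ∈ S
  · exact Or.inl fun R => hbd R (hall R)
  right
  push Not at hall
  obtain ⟨R1, hR1⟩ := hall
  have hbdd : BddAbove S := ⟨R1, fun R hR => by
    by_contra hcon
    push Not at hcon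
    exact hR1 (hdown R hR R1 hcon.le)⟩
  set ρ : ℝ := sSup S with hρ
  have hlt : ∀ R < ρ, R ∈ S := by
    intro R hR
    obtain ⟨R', hR', h1⟩ := exists_lt_of_lt_csSup ⟨0, h0⟩ hR
    exact hdown R' hR' R h1.le
  have hρ0 : 0 < ρ := by
    obtain ⟨R', hR', L, hL⟩ := hun 0 h0 le_rfl
    exact hR'.trans_le (le_csSup hbdd (hreg R' L hL))
  have hρS : ρ ∉ S := by
    intro h
    obtain ⟨R', hR', L, hL⟩ := hun ρ h hρ0.le
    exact absurd (le_csSup hbdd (hreg R' L hL)) (not_le.2 hR')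
  have hge : ∀ (a : α) (d : Dat H K), Adm (Wf a) m ν T d → ¬ Good (Wf a) m ν T d →
      ρ ≤ d.size T := by
    intro a d hd hb
    by_contra hcon
    push Not at hcon
    exact hb (hlt _ hcon a d hd le_rfl)
  refine ⟨ρ, hρ0, fun R hR => hbd R (hlt R hR), ?_, ?_⟩
  · have : ∃ (a : α) (d : Dat H K), Adm (Wf a) m ν T d ∧ d.size T ≤ ρ ∧ ¬ Good (Wf a) m ν T d := by
      by_contra hcon
      push Not at hcon
      exact hρS fun a d hd hs => hcon a d hd hs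
    obtain ⟨a, d, h1, h2, h3⟩ := this
    exact ⟨a, d, h1, h3, le_antisymm h2 (hge a d h1 h3)⟩
  · intro a d hd hb hs
    obtain ⟨φ, hφ, b, M⟩ := hcpt a
    set U : Ultrafilter ℕ := hyperfilter ℕ with hU
    have hUle : (U : Filter ℕ) ≤ atTop := Nat.hyperfilter_le_atTop
    have MU : MosU U (fun k => Wf (a (φ k))) (Wf b) := M.toU U hUle
    obtain ⟨R, hR⟩ : ∃ R, ∀ n, (d n).size T ≤ R := by
      obtain ⟨R, hR⟩ := hs.bddAbove_range
      exact ⟨R, fun n => hR ⟨n, rfl⟩⟩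
    have hR0 : 0 ≤ R := (size_nonneg hT.le (d 0)).trans (hR 0)
    obtain ⟨e, he, hx, hFl, hsz⟩ := weak_limit Fr0 (fun k => hle (a (φ k))) (hle b) hT hcomp U MU
      (fun k => hd (φ k)) (fun k => hR (φ k))
    have hsU : Tendsto (fun k => (d (φ k)).size T) U (𝓝 ρ) :=
      (hs.comp hφ.tendsto_atTop).mono_left hUle
    have hbad : ¬ Good (Wf b) m ν T e := by
      rintro ⟨v, v1, y, y1, Sv, hv0⟩
      have hsR := Real.sqrt_nonneg R
      obtain ⟨N0, hN0, h⟩ := open_ultra Fr0 Un0 (hle b) (hcl b) hν hT hcomp (R := √R + R)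
        (by positivity) he.force Sv hv0
      have hp := fun i => size_parts hT.le (hR (φ i))
      obtain ⟨i, u, u1, z, z1, h1, h2, -⟩ := (h ℕ U (fun k => Wf (a (φ k))) (fun k => d (φ k))
        (fun k => hle _) (fun k => hcl _) MU (fun k => hd _)
        (fun i => (Real.le_sqrt_of_sq_le (hp i).1).trans (by linarith))
        (fun i => (Real.le_sqrt_of_sq_le (hp i).2.1).trans (by linarith))
        (fun i => (hp i).2.2.1.trans (by linarith)) hx hFl 1 one_pos).exists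
      exact hb (φ i) ⟨u, u1, z, z1, h1, h2⟩
    have h1 := hsz _ hsU
    have h2 : 0 ≤ ρ - e.size T :=
      ge_of_tendsto h1 (Eventually.of_forall fun i => dsq_nonneg hT.le _ _)
    have h3 : e.size T = ρ := le_antisymm (by linarith) (hge b e he hbad)
    rw [h3, sub_self] at h1
    have hfr : ∀ l : ℕ, ∃ᶠ k in atTop, (d (φ k)).dsq T e < 1 / ((l : ℝ) + 1) := by
      intro l
      have hl : (0 : ℝ) < 1 / ((l : ℝ) + 1) := by positivity
      exact (h1.eventually_lt_const hl).frequently.filter_mono hUle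
    obtain ⟨ψ, hψ, hψP⟩ := extraction_forall_of_frequently hfr
    refine ⟨fun n => φ (ψ n), b, e, hφ.comp hψ, M.comp hψ, he, hbad, h3, ?_⟩
    exact squeeze_zero (fun n => dsq_nonneg hT.le _ _) (fun n => (hψP n).le)
      tendsto_one_div_add_atTop_nhds_zero_nat

end Pool.Agent.H303.DC
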