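import Mathlib

/-!
Limits of convex sets and of sets which are star-shaped with respect to a ball.
-/

set_option autoImplicit false

open Set Filter Topology
open scoped InnerProductSpace

namespace Pool.Agent.H303.DC

section sub

variable {X : Type} [MetricSpace X] [TopologicalSpace.SeparableSpace X]

/-- `x` is a limit of points of `Ωn n`. -/
def Lo (Ωn : ℕ → Set X) (x : X) : Prop := ∀ δ : ℝ, 0 < δ → ∀ᶠ n in atTop, ∃ a ∈ Ωn n, dist a x < δ

theorem exists_sub [Nonempty X] (Ωn : ℕ → Set X) : ∃ φ : ℕ → ℕ, StrictMono φ ∧ ∀ x : X,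
    Lo (fun n => Ωn (φ n)) x ∨ ∃ δ : ℝ, 0 < δ ∧ ∀ᶠ n in atTop, ∀ a ∈ Ωn (φ n), δ ≤ dist a x := by
  classical
  set d : ℕ → X := TopologicalSpace.denseSeq X with hd
  set f : ℕ → (ℕ × ℕ → Bool) := fun n p =>
    decide (Ωn n ∩ Metric.ball (d p.1) (1 / ((p.2 : ℝ) + 1))).Nonempty with hf
  obtain ⟨g, φ, hφ, hg⟩ := CompactSpace.tendsto_subseq f
  refine ⟨φ, hφ, fun x => ?_⟩
  have hcoord : ∀ p : ℕ × ℕ, ∀ᶠ n in atTop, f (φ n) p = g p := by
    intro p
    have h1 : Tendsto (fun n => f (φ n) p) atTop (𝓝 (g p)) :=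
      ((continuous_apply p).tendsto g).comp hg
    rw [nhds_discrete] at h1
    exact tendsto_pure.1 h1
  by_cases hLo : Lo (fun n => Ωn (φ n)) x
  · exact Or.inl hLo
  right
  unfold Lo at hLo
  push Not at hLo
  obtain ⟨δ, hδ, hfr⟩ := hLo
  obtain ⟨k, hk⟩ := exists_nat_one_div_lt (show 0 < δ / 2 by positivity)
  have hk0 : (0 : ℝ) < 1 / ((k : ℝ) + 1) := by positivity
  obtain ⟨i, hi⟩ := (TopologicalSpace.denseRange_denseSeq X).exists_dist_lt x hk0
  have hgf : g (i, k) = false := by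
    obtain ⟨n, h1, h2⟩ := (hfr.and_eventually (hcoord (i, k))).exists
    rw [← h2]
    simp only [hf, decide_eq_false_iff_not]
    rintro ⟨a, ha1, ha2⟩
    have h3 := h1 a ha1
    rw [Metric.mem_ball] at ha2
    have h4 : dist a x ≤ dist a (d i) + dist (d i) x := dist_triangle _ _ _
    rw [dist_comm] at hi
    have h5 : dist (d i) x < 1 / ((k : ℝ) + 1) := hi
    linarith
  refine ⟨1 / ((k : ℝ) + 1) - dist x (d i), by
    have : dist x (d i) < 1 / ((k : ℝ) + 1) := hi
    linarith, ?_⟩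
  filter_upwards [hcoord (i, k)] with n hn a ha
  rw [hgf] at hn
  simp only [hf, decide_eq_false_iff_not] at hn
  by_contra hcon
  push Not at hcon
  refine hn ⟨a, ha, ?_⟩
  rw [Metric.mem_ball]
  have h4 : dist a (d i) ≤ dist a x + dist x (d i) := dist_triangle _ _ _
  linarith

omit [TopologicalSpace.SeparableSpace X] in
theorem lo_closed (Ωn : ℕ → Set X) : IsClosed {x | Lo Ωn x} := by
  refine isClosed_of_closure_subset fun x hx δ hδ => ?_
  obtain ⟨y, hy, hxy⟩ := Metric.mem_closure_iff.1 hx (δ / 2) (by positivity)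
  filter_upwards [hy (δ / 2) (by positivity)] with n hn
  obtain ⟨a, ha, h2⟩ := hn
  refine ⟨a, ha, ?_⟩
  have := dist_triangle a y x
  rw [dist_comm y x] at this
  linarith

omit [TopologicalSpace.SeparableSpace X] in
theorem lo_sub {Ωn : ℕ → Set X} {D : Set X} (hD : ∀ n, Ωn n ⊆ D) : {x | Lo Ωn x} ⊆ closure D := by
  intro x hx
  rw [Metric.mem_closure_iff]
  intro ε hε
  obtain ⟨n, a, ha, h⟩ := (hx ε hε).exists
  exact ⟨a, hD n ha, by rwa [dist_comm]⟩

omit [TopologicalSpace.SeparableSpace X] in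
theorem unif_near {Ωn : ℕ → Set X} {C : Set X} (hC : IsCompact C) (hCK : ∀ x ∈ C, Lo Ωn x) {δ : ℝ}
    (hδ : 0 < δ) : ∀ᶠ n in atTop, ∀ z ∈ C, ∃ a ∈ Ωn n, dist a z < δ := by
  obtain ⟨t, htC, htf, hcov⟩ := hC.finite_cover_balls (show 0 < δ / 2 by positivity)
  have hev : ∀ᶠ n in atTop, ∀ x ∈ t, ∃ a ∈ Ωn n, dist a x < δ / 2 := by
    rw [Filter.eventually_all_finite htf]
    intro x hx
    exact hCK x (htC hx) (δ / 2) (by positivity)
  filter_upwards [hev] with n hn z hz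
  obtain ⟨x, hx, hzx⟩ := mem_iUnion₂.1 (hcov hz)
  obtain ⟨a, ha, h⟩ := hn x hx
  refine ⟨a, ha, ?_⟩
  rw [Metric.mem_ball, dist_comm] at hzx
  have := dist_triangle a x z
  linarith

end sub

variable {X : Type} [NormedAddCommGroup X] [InnerProductSpace ℝ X] [FiniteDimensional ℝ X]

theorem swallow_convex {Ωn : ℕ → Set X} (ho : ∀ n, IsOpen (Ωn n)) (hc : ∀ n, Convex ℝ (Ωn n))
    {C : Set X} (hC : IsCompact C) (hCK : C ⊆ interior {x | Lo Ωn x}) :
    ∀ᶠ n in atTop, C ⊆ Ωn n := by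
  have : CompleteSpace X := FiniteDimensional.complete ℝ X
  have : ProperSpace X := FiniteDimensional.proper_real X
  obtain ⟨δ, hδ, hth⟩ := hC.exists_cthickening_subset_open isOpen_interior hCK
  have hCt : IsCompact (Metric.cthickening δ C) := hC.cthickening
  have h1 := unif_near hCt (fun x hx => interior_subset (hth hx)) (show 0 < δ / 2 by positivity)
  filter_upwards [h1] with n hn y hy
  by_contra hcon
  obtain ⟨f, hf⟩ := geometric_hahn_banach_open_point (hc n) (ho n) hcon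
  set v : X := (InnerProductSpace.toDual ℝ X).symm f with hv
  have hfv : ∀ x, f x = ⟪v, x⟫_ℝ := fun x => by rw [hv, InnerProductSpace.toDual_symm_apply]
  obtain ⟨a0, ha0, -⟩ := hn y (Metric.self_subset_cthickening C hy)
  have hv0 : v ≠ 0 := by
    intro h
    have := hf a0 ha0
    rw [hfv, hfv, h, inner_zero_left, inner_zero_left] at this
    exact lt_irrefl _ this
  have hvn : 0 < ‖v‖ := norm_pos_iff.2 hv0
  set z : X := y + (δ / ‖v‖) • v with hz
  have hzC : z ∈ Metric.cthickening δ C := by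
    refine Metric.mem_cthickening_of_dist_le z y δ C hy ?_
    rw [dist_eq_norm, hz, add_sub_cancel_left, norm_smul, Real.norm_of_nonneg (by positivity)]
    rw [div_mul_cancel₀ _ hvn.ne']
  obtain ⟨a, ha, haz⟩ := hn z hzC
  have h2 := hf a ha
  rw [hfv, hfv] at h2
  have h3 : ⟪v, z⟫_ℝ = ⟪v, y⟫_ℝ + δ * ‖v‖ := by
    rw [hz, inner_add_right, real_inner_smul_right, real_inner_self_eq_norm_sq]
    field_simp
  have h4 : ⟪v, z⟫_ℝ - ⟪v, a⟫_ℝ ≤ ‖v‖ * (δ / 2) := by
    rw [← inner_sub_right]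
    refine (real_inner_le_norm _ _).trans ?_
    rw [dist_comm, dist_eq_norm] at haz
    gcongr
  nlinarith

theorem swallow_star {Ωn : ℕ → Set X} {c : ℕ → X} {ρ : ℝ} (hρ : 0 < ρ)
    (hs : ∀ n, ∀ y ∈ Metric.ball (c n) ρ, ∀ x ∈ Ωn n, segment ℝ y x ⊆ Ωn n)
    {M : ℝ} (hcb : ∀ n, ‖c n‖ ≤ M)
    {C : Set X} (hC : IsCompact C) (hCK : C ⊆ interior {x | Lo Ωn x}) :
    ∀ᶠ n in atTop, C ⊆ Ωn n := by
  have : ProperSpace X := FiniteDimensional.proper_real X
  obtain ⟨δ, hδ, hth⟩ := hC.exists_cthickening_subset_open isOpen_interior hCK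
  have hCt : IsCompact (Metric.cthickening δ C) := hC.cthickening
  obtain ⟨M2, hM2⟩ := hC.isBounded.exists_norm_le
  set N : ℝ := |M| + |M2| + 1 with hN
  have hN0 : 0 < N := by positivity
  set t : ℝ := δ / N with ht
  have ht0 : 0 < t := by positivity
  have h1 := unif_near hCt (fun x hx => interior_subset (hth hx)) (show 0 < t * ρ by positivity)
  filter_upwards [h1] with n hn y hy
  have hyc : ‖y - c n‖ ≤ N := by
    refine (norm_sub_le _ _).trans ?_
    have k1 := hM2 y hy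
    have k2 := hcb n
    have k3 := le_abs_self M
    have k4 := le_abs_self M2
    linarith
  set z : X := y + t • (y - c n) with hz
  have hzC : z ∈ Metric.cthickening δ C := by
    refine Metric.mem_cthickening_of_dist_le z y δ C hy ?_
    rw [dist_eq_norm, hz, add_sub_cancel_left, norm_smul, Real.norm_of_nonneg ht0.le]
    calc t * ‖y - c n‖ ≤ t * N := by gcongr
      _ = δ := by rw [ht]; field_simp
  obtain ⟨a, ha, haz⟩ := hn z hzC
  set b : X := c n + t⁻¹ • (z - a) with hb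
  have hbc : b ∈ Metric.ball (c n) ρ := by
    rw [Metric.mem_ball, dist_eq_norm, hb, add_sub_cancel_left, norm_smul,
      Real.norm_of_nonneg (by positivity), inv_mul_lt_iff₀ ht0]
    rwa [dist_comm, dist_eq_norm] at haz
  refine hs n b hbc a ha ?_
  refine ⟨t / (1 + t), 1 / (1 + t), by positivity, by positivity, by field_simp; ring, ?_⟩
  have e1 : (t / (1 + t)) • b = (t / (1 + t)) • c n + (1 / (1 + t)) • (z - a) := by
    rw [hb, smul_add, smul_smul]
    congr 2
    field_simp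
  have e2 : (1 / (1 + t)) • z = (1 / (1 + t)) • y + (t / (1 + t)) • (y - c n) := by
    rw [hz, smul_add, smul_smul]
    congr 2
    field_simp
  have e3 : (1 / (1 + t)) • y + (t / (1 + t)) • y = y := by
    rw [← add_smul]
    have : 1 / (1 + t) + t / (1 + t) = 1 := by field_simp
    rw [this, one_smul]
  calc (t / (1 + t)) • b + (1 / (1 + t)) • a
      = (t / (1 + t)) • c n + (1 / (1 + t)) • z := by
        rw [e1, smul_sub]
        abel
    _ = (1 / (1 + t)) • y + (t / (1 + t)) • y := by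
        rw [e2, smul_sub]
        abel
    _ = y := e3

omit [FiniteDimensional ℝ X] in
theorem lo_convex {Ωn : ℕ → Set X} (hc : ∀ n, Convex ℝ (Ωn n)) : Convex ℝ {x | Lo Ωn x} := by
  intro x hx y hy a b ha hb hab δ hδ
  filter_upwards [hx δ hδ, hy δ hδ] with n hn1 hn2
  obtain ⟨x', hx', h1⟩ := hn1
  obtain ⟨y', hy', h2⟩ := hn2
  refine ⟨a • x' + b • y', hc n hx' hy' ha hb hab, ?_⟩
  rw [dist_eq_norm] at h1 h2 ⊢
  have e : a • x' + b • y' - (a • x + b • y) = a • (x' - x) + b • (y' - y) := by module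
  rw [e]
  refine (norm_add_le _ _).trans_lt ?_
  rw [norm_smul, norm_smul, Real.norm_of_nonneg ha, Real.norm_of_nonneg hb]
  rcases ha.eq_or_lt with h | h
  · have hb1 : b = 1 := by linarith
    rw [← h, hb1]
    linarith
  · have k1 : a * ‖x' - x‖ < a * δ := by gcongr
    have k2 : b * ‖y' - y‖ ≤ b * δ := by gcongr
    have k3 : a * δ + b * δ = δ := by rw [← add_mul, hab, one_mul]
    linarith

omit [FiniteDimensional ℝ X] in
theorem lo_ball {Ωn : ℕ → Set X} {c : ℕ → X} {c0 : X} {ρ : ℝ}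
    (hb : ∀ n, Metric.ball (c n) ρ ⊆ Ωn n) (hc : Tendsto c atTop (𝓝 c0)) :
    Metric.ball c0 ρ ⊆ {x | Lo Ωn x} := by
  intro x hx δ hδ
  have h1 : ∀ᶠ n in atTop, x ∈ Metric.ball (c n) ρ := by
    have h2 : Tendsto (fun n => dist x (c n)) atTop (𝓝 (dist x c0)) := tendsto_const_nhds.dist hc
    exact h2.eventually_lt_const hx
  filter_upwards [h1] with n hn
  exact ⟨x, hb n hn, by rwa [dist_self]⟩

omit [FiniteDimensional ℝ X] in
theorem lo_star {Ωn : ℕ → Set X} {c : ℕ → X} {c0 : X} {ρ : ℝ}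
    (hs : ∀ n, ∀ y ∈ Metric.ball (c n) ρ, ∀ x ∈ Ωn n, segment ℝ y x ⊆ Ωn n)
    (hc : Tendsto c atTop (𝓝 c0)) {y x : X} (hy : y ∈ Metric.ball c0 ρ) (hx : Lo Ωn x)
    {a b : ℝ} (ha : 0 ≤ a) (hb : 0 ≤ b) (hab : a + b = 1) : Lo Ωn (a • y + b • x) := by
  intro δ hδ
  have h1 : ∀ᶠ n in atTop, y ∈ Metric.ball (c n) ρ := by
    have h2 : Tendsto (fun n => dist y (c n)) atTop (𝓝 (dist y c0)) := tendsto_const_nhds.dist hc
    exact h2.eventually_lt_const hy
  filter_upwards [h1, hx δ hδ] with n hn1 hn2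
  obtain ⟨x', hx', h2⟩ := hn2
  refine ⟨a • y + b • x', hs n y hn1 x' hx' ⟨a, b, ha, hb, hab, rfl⟩, ?_⟩
  rw [dist_eq_norm] at h2 ⊢
  have e : a • y + b • x' - (a • y + b • x) = b • (x' - x) := by module
  rw [e, norm_smul, Real.norm_of_nonneg hb]
  have hb1 : b ≤ 1 := by linarith
  nlinarith [norm_nonneg (x' - x)]

omit [FiniteDimensional ℝ X] in
/-- Points `a y + b x` of a star-shaped set are interior. -/
theorem star_interior {K : Set X} {c0 : X} {ρ : ℝ} (hρ : 0 < ρ)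
    (hs : ∀ y ∈ Metric.ball c0 ρ, ∀ x ∈ K, ∀ a b : ℝ, 0 ≤ a → 0 ≤ b → a + b = 1 →
      a • y + b • x ∈ K) {x : X} (hx : x ∈ K) {a b : ℝ} (ha : 0 < a) (hb : 0 ≤ b)
    (hab : a + b = 1) : a • c0 + b • x ∈ interior K := by
  rw [mem_interior]
  refine ⟨Metric.ball (a • c0 + b • x) (a * ρ), ?_, Metric.isOpen_ball,
    Metric.mem_ball_self (by positivity)⟩
  intro w hw
  rw [Metric.mem_ball, dist_eq_norm] at hw
  have h1 : c0 + a⁻¹ • (w - (a • c0 + b • x)) ∈ Metric.ball c0 ρ := by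
    rw [Metric.mem_ball, dist_eq_norm, add_sub_cancel_left, norm_smul,
      Real.norm_of_nonneg (by positivity), inv_mul_lt_iff₀ ha]
    exact hw
  have h2 := hs _ h1 x hx a b ha.le hb hab
  have e : a • (c0 + a⁻¹ • (w - (a • c0 + b • x))) + b • x = w := by
    rw [smul_add, smul_smul, mul_inv_cancel₀ ha.ne', one_smul]
    abel
  rwa [e] at h2

end Pool.Agent.H303.DC
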