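import Pool.Agent.H303.DC.Core
import Pool.Agent.H303.DC.Geo

/-!
The class of the convex open sets and of the open sets which are star-shaped with respect to a
ball of given radius is compact for the convergence in the sense of Mosco.
-/

set_option autoImplicit false

open MeasureTheory Set Filter Topology
open scoped InnerProductSpace ENNReal

namespace Pool.Agent.H303.DC

open H772R2.NS Pool.Agent.H303.DS

variable {D : Set E3}

/-- Weak limits of functions vanishing near a point vanish there. -/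
theorem weak_vanish {E : Type} [NormedAddCommGroup E] [InnerProductSpace ℝ E]
    {q : ℕ → Lp E 2 ((volume : Measure E3).restrict D)}
    {p : Lp E 2 ((volume : Measure E3).restrict D)}
    (hw : ∀ h, Tendsto (fun n => ⟪q n, h⟫_ℝ) atTop (𝓝 ⟪p, h⟫_ℝ)) {K : Set E3}
    {Ωn : ℕ → Set E3}
    (hK : ∀ x, x ∉ K → ∃ δ : ℝ, 0 < δ ∧ ∀ᶠ n in atTop, ∀ a ∈ Ωn n, δ ≤ dist a x)
    (hq : ∀ n, ∀ᵐ x ∂((volume : Measure E3).restrict D), x ∉ Ωn n → q n x = 0) :
    ∀ᵐ x ∂((volume : Measure E3).restrict D), x ∉ K → p x = 0 := by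
  have hset : {x | ¬ (x ∉ K → p x = 0)} = {x | x ∉ K ∧ p x ≠ 0} := by
    ext x
    simp
  rw [ae_iff, hset]
  refine measure_null_of_locally_null _ fun x hx => ?_
  obtain ⟨δ, hδ, hev⟩ := hK x hx.1
  refine ⟨{x | x ∉ K ∧ p x ≠ 0} ∩ Metric.ball x δ,
    inter_mem_nhdsWithin _ (Metric.ball_mem_nhds x hδ), ?_⟩
  have hbm : MeasurableSet (Metric.ball x δ) := measurableSet_ball
  have hm : MemLp ((Metric.ball x δ).indicator p) 2 ((volume : Measure E3).restrict D) :=
    (Lp.memLp p).indicator hbm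
  set h := hm.toLp _ with hh
  have h0 : ∀ᶠ n in atTop, ⟪q n, h⟫_ℝ = 0 := by
    filter_upwards [hev] with n hn
    rw [L2.inner_def]
    have : (fun w => ⟪(q n : E3 → E) w, (h : E3 → E) w⟫_ℝ)
        =ᵐ[(volume : Measure E3).restrict D] fun _ => (0 : ℝ) := by
      filter_upwards [hq n, hm.coeFn_toLp] with w hw1 hw2
      rw [hh, hw2]
      by_cases hwb : w ∈ Metric.ball x δ
      · have : w ∉ Ωn n := fun h => absurd (hn w h) (not_le.2 hwb)
        rw [hw1 this, inner_zero_left]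
      · rw [indicator_of_notMem hwb, inner_zero_right]
    rw [integral_congr_ae this, integral_zero]
  have h1 : ⟪p, h⟫_ℝ = 0 := by
    refine tendsto_nhds_unique (hw h) ?_
    exact tendsto_const_nhds.congr' (h0.mono fun n hn => hn.symm)
  have h2 : ⟪p, h⟫_ℝ = ⟪h, h⟫_ℝ := by
    rw [L2.inner_def, L2.inner_def]
    refine integral_congr_ae ?_
    filter_upwards [hm.coeFn_toLp] with w hw2
    rw [hh, hw2]
    by_cases hwb : w ∈ Metric.ball x δ
    · rw [indicator_of_mem hwb]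
    · rw [indicator_of_notMem hwb, inner_zero_right, inner_zero_right]
  have h3 : h = 0 := by
    rw [h2] at h1
    exact inner_self_eq_zero.1 h1
  have h4 : ∀ᵐ w ∂((volume : Measure E3).restrict D), (Metric.ball x δ).indicator p w = 0 := by
    filter_upwards [hm.coeFn_toLp, Lp.coeFn_zero E 2 ((volume : Measure E3).restrict D)]
      with w hw1 hw2
    rw [← hw1, ← hh, h3, hw2]
    rfl
  refine measure_mono_null ?_ (ae_iff.1 h4)
  rintro w ⟨⟨-, hw1⟩, hw2⟩
  show ¬ (Metric.ball x δ).indicator p w = 0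
  rw [indicator_of_mem hw2]
  exact hw1

theorem ext_vanish {Ω : Set E3} (hm : MeasurableSet Ω) (hD : MeasurableSet D) (h : Ω ⊆ D)
    {p : L2V D × L2M D} (hp : p ∈ extW D Ω) :
    (∀ᵐ x ∂((volume : Measure E3).restrict D), x ∉ Ω → p.1 x = 0) ∧
      ∀ᵐ x ∂((volume : Measure E3).restrict D), x ∉ Ω → p.2 x = 0 := by
  have E := emb_ext hm hD h
  constructor
  · have h1 := E.erH p hp
    filter_upwards [ext_coe hm h (res E3 h p.1)] with x hx hxΩ
    rw [h1] at hx
    rw [hx, indicator_of_notMem hxΩ]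
  · have h1 := E.erK p hp
    filter_upwards [ext_coe hm h (res M3 h p.2)] with x hx hxΩ
    rw [h1] at hx
    rw [hx, indicator_of_notMem hxΩ]

/-- The recovery of the elements of the limit space. -/
theorem recov_of {Ωn : ℕ → Set E3} {Ω : Set E3}
    (h1 : ∀ C : Set E3, IsCompact C → C ⊆ Ω → ∀ᶠ n in atTop, C ⊆ Ωn n)
    {p : L2V D × L2M D} (hp : p ∈ extW D Ω) :
    ∃ q : ℕ → L2V D × L2M D, (∀ n, q n ∈ extW D (Ωn n)) ∧ Tendsto q atTop (𝓝 p) := by
  have hne : ∀ n, (extW D (Ωn n) : Set (L2V D × L2M D)).Nonempty := fun n => ⟨0, zero_mem _⟩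
  have hex : ∀ n : ℕ, ∃ q ∈ (extW D (Ωn n) : Set (L2V D × L2M D)),
      dist p q < Metric.infDist p (extW D (Ωn n) : Set (L2V D × L2M D)) + 1 / ((n : ℝ) + 1) :=
    fun n => (Metric.infDist_lt_iff (hne n)).1 (by
      have : (0 : ℝ) < 1 / ((n : ℝ) + 1) := by positivity
      linarith)
  choose q hq1 hq2 using hex
  refine ⟨q, hq1, ?_⟩
  have hlim : Tendsto (fun n => Metric.infDist p (extW D (Ωn n) : Set (L2V D × L2M D))) atTop
      (𝓝 0) := by
    rw [Metric.tendsto_nhds]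
    intro ε hε
    have hp' : p ∈ closure (preV D Ω : Set (L2V D × L2M D)) := by
      rw [← extW_coe]
      exact hp
    obtain ⟨s, hs, hps⟩ := Metric.mem_closure_iff.1 hp' ε hε
    obtain ⟨φ, k1, k2, k3⟩ := hs
    filter_upwards [h1 (tsupport φ) k1.compact k1.supp] with n hn
    rw [Real.dist_eq, sub_zero, abs_of_nonneg Metric.infDist_nonneg]
    refine (Metric.infDist_le_dist_of_mem ?_).trans_lt hps
    refine Submodule.le_topologicalClosure _ ?_
    exact ⟨φ, ⟨k1.smooth, k1.compact, hn, k1.divfree⟩, k2, k3⟩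
  rw [tendsto_iff_dist_tendsto_zero]
  have h2 : Tendsto (fun n : ℕ => Metric.infDist p (extW D (Ωn n) : Set (L2V D × L2M D))
      + 1 / ((n : ℝ) + 1)) atTop (𝓝 0) := by
    have := hlim.add (tendsto_one_div_add_atTop_nhds_zero_nat (𝕜 := ℝ))
    rwa [add_zero] at this
  refine squeeze_zero (fun _ => dist_nonneg) (fun n => ?_) h2
  rw [dist_comm]
  exact (hq2 n).le

/-- The convergence in the sense of Mosco of open sets with a limit set `K`. -/
theorem mosS_of (hD : IsOpen D) (hb : Bornology.IsBounded D) {Ωn : ℕ → Set E3}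
    (ho : ∀ n, IsOpen (Ωn n)) (hn : ∀ n, Ωn n ⊆ D)
    (hdich : ∀ x : E3, Lo Ωn x ∨ ∃ δ : ℝ, 0 < δ ∧ ∀ᶠ n in atTop, ∀ a ∈ Ωn n, δ ≤ dist a x)
    (hsw : ∀ C : Set E3, IsCompact C → C ⊆ interior {x | Lo Ωn x} → ∀ᶠ n in atTop, C ⊆ Ωn n)
    (hcase : (volume : Measure E3) {x | Lo Ωn x} = 0 ∨ ∃ x₀ : E3, ∀ s : ℝ, 1 < s → ∀ x,
      dil x₀ s x ∈ {x | Lo Ωn x} → x ∈ interior {x | Lo Ωn x}) :
    MosS (fun n => extW D (Ωn n)) (extW D (interior {x | Lo Ωn x})) where
  recov := fun p hp => recov_of hsw hp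
  lim := fun φ hφ q p h1 h2 h3 => by
    have hK : ∀ x, x ∉ {x | Lo Ωn x} → ∃ δ : ℝ, 0 < δ ∧
        ∀ᶠ n in atTop, ∀ a ∈ Ωn (φ n), δ ≤ dist a x := by
      intro x hx
      rcases hdich x with h | ⟨δ, hδ, h⟩
      · exact absurd h hx
      · exact ⟨δ, hδ, hφ.tendsto_atTop.eventually h⟩
    have hp : p ∈ graphW D :=
      H772R2.NSR.mem_of_weak_limit (graphW D) (extW_self D ▸ extW_closed D D) atTop
        (fun n => (q n).1) (fun n => (q n).2) p.1 p.2
        (Eventually.of_forall fun n => extW_le (hn (φ n)) (h1 n)) h2 h3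
    have hv1 := weak_vanish (Ωn := fun n => Ωn (φ n)) h2 hK fun n =>
      (ext_vanish (ho (φ n)).measurableSet hD.measurableSet (hn (φ n)) (h1 n)).1
    have hv2 := weak_vanish (Ωn := fun n => Ωn (φ n)) h3 hK fun n =>
      (ext_vanish (ho (φ n)).measurableSet hD.measurableSet (hn (φ n)) (h1 n)).2
    have hcpt : IsCompact {x | Lo Ωn x} :=
      hb.isCompact_closure.of_isClosed_subset (lo_closed Ωn) (lo_sub hn)
    rcases hcase with h0 | ⟨x₀, hx₀⟩
    · have hae : ∀ᵐ x ∂((volume : Measure E3).restrict D), x ∉ {x | Lo Ωn x} := by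
        refine ae_restrict_of_ae ?_
        rw [ae_iff]
        refine measure_mono_null (fun x hx => ?_) h0
        simpa using hx
      have e1 : p.1 = 0 := by
        apply Lp.ext
        filter_upwards [hv1, hae, Lp.coeFn_zero E3 2 ((volume : Measure E3).restrict D)]
          with x k1 k2 k3
        rw [k1 k2, k3]
        rfl
      have e2 : p.2 = 0 := by
        apply Lp.ext
        filter_upwards [hv2, hae, Lp.coeFn_zero M3 2 ((volume : Measure E3).restrict D)]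
          with x k1 k2 k3
        rw [k1 k2, k3]
        rfl
      have : p = 0 := Prod.ext e1 e2
      rw [this]
      exact zero_mem _
    · exact star_core hD.measurableSet hcpt x₀ hx₀ hp hv1 hv2

/-- The class of open sets. -/
structure Cls (D : Set E3) (ρ : ℝ) (Ω : Set E3) : Prop where
  op : IsOpen Ω
  sub : Ω ⊆ D
  shape : Convex ℝ Ω ∨ ∃ c : E3, Metric.ball c ρ ⊆ Ω ∧
    ∀ y ∈ Metric.ball c ρ, ∀ x ∈ Ω, segment ℝ y x ⊆ Ω

theorem dil_combo {x₀ : E3} {s : ℝ} (hs : 1 < s) (x : E3) :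
    x = (1 - s⁻¹) • x₀ + s⁻¹ • dil x₀ s x := by
  unfold dil
  have hs0 : s ≠ 0 := by linarith
  rw [smul_add, smul_smul, inv_mul_cancel₀ hs0, one_smul, sub_smul, one_smul]
  abel

/-- Compactness of the class. -/
theorem cls_compact (hD : IsOpen D) (hb : Bornology.IsBounded D) {ρ : ℝ} (hρ : 0 < ρ)
    (Ωn : ℕ → Set E3) (hcls : ∀ n, Cls D ρ (Ωn n)) :
    ∃ φ : ℕ → ℕ, StrictMono φ ∧ ∃ Ω, Cls D ρ Ω ∧
      MosS (fun n => extW D (Ωn (φ n))) (extW D Ω) := by
  have hsubD : ∀ Ωm : ℕ → Set E3, (∀ n, Ωm n ⊆ D) →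
      (∀ C : Set E3, IsCompact C → C ⊆ interior {x | Lo Ωm x} → ∀ᶠ n in atTop, C ⊆ Ωm n) →
      interior {x | Lo Ωm x} ⊆ D := by
    intro Ωm h1 h2 x hx
    obtain ⟨n, hn⟩ := (h2 {x} isCompact_singleton (singleton_subset_iff.2 hx)).exists
    exact h1 n (hn rfl)
  by_cases hfr : ∃ᶠ n in atTop, Convex ℝ (Ωn n)
  · obtain ⟨φ1, hφ1, hc⟩ := extraction_of_frequently_atTop hfr
    obtain ⟨φ2, hφ2, hd⟩ := exists_sub (fun n => Ωn (φ1 n))
    have hc' : ∀ n, Convex ℝ (Ωn (φ1 (φ2 n))) := fun n => hc _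
    have ho : ∀ n, IsOpen (Ωn (φ1 (φ2 n))) := fun n => (hcls _).op
    have hsub : ∀ n, Ωn (φ1 (φ2 n)) ⊆ D := fun n => (hcls _).sub
    have hsw : ∀ C : Set E3, IsCompact C →
        C ⊆ interior {x | Lo (fun n => Ωn (φ1 (φ2 n))) x} →
        ∀ᶠ n in atTop, C ⊆ Ωn (φ1 (φ2 n)) := fun C hC hCK => swallow_convex ho hc' hC hCK
    have hK := lo_convex hc'
    refine ⟨fun n => φ1 (φ2 n), hφ1.comp hφ2, interior {x | Lo (fun n => Ωn (φ1 (φ2 n))) x},
      ⟨isOpen_interior, hsubD _ hsub hsw, Or.inl hK.interior⟩,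
      mosS_of hD hb ho hsub hd hsw ?_⟩
    rcases (interior {x | Lo (fun n => Ωn (φ1 (φ2 n))) x}).eq_empty_or_nonempty with h | h
    · left
      have h1 := hK.addHaar_frontier (volume : Measure E3)
      rwa [frontier, h, diff_empty, (lo_closed _).closure_eq] at h1
    · right
      obtain ⟨x₀, hx₀⟩ := h
      refine ⟨x₀, fun s hs x hx => ?_⟩
      have h1 : 0 < s⁻¹ := by positivity
      have h2 : s⁻¹ < 1 := inv_lt_one_of_one_lt₀ hs
      rw [dil_combo (x₀ := x₀) hs x]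
      exact hK.combo_interior_self_mem_interior hx₀ hx (by linarith) h1.le (by ring)
  · have hev : ∀ᶠ n in atTop, ¬ Convex ℝ (Ωn n) := not_frequently.1 hfr
    obtain ⟨N, hN⟩ := eventually_atTop.1 hev
    have hst : ∀ n, ∃ c : E3, Metric.ball c ρ ⊆ Ωn (n + N) ∧
        ∀ y ∈ Metric.ball c ρ, ∀ x ∈ Ωn (n + N), segment ℝ y x ⊆ Ωn (n + N) := fun n =>
      (hcls (n + N)).shape.resolve_left (hN _ (by omega))
    choose c hc1 hc2 using hst
    have hcb : ∀ n, c n ∈ closure D := fun n =>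
      subset_closure ((hcls (n + N)).sub (hc1 n (Metric.mem_ball_self hρ)))
    obtain ⟨c0, -, φ1, hφ1, hlim⟩ := hb.isCompact_closure.tendsto_subseq hcb
    obtain ⟨φ2, hφ2, hd⟩ := exists_sub (fun n => Ωn (φ1 n + N))
    obtain ⟨M, hM⟩ := hb.isCompact_closure.isBounded.exists_norm_le
    have ho : ∀ n, IsOpen (Ωn (φ1 (φ2 n) + N)) := fun n => (hcls _).op
    have hsub : ∀ n, Ωn (φ1 (φ2 n) + N) ⊆ D := fun n => (hcls _).sub
    have hlim2 : Tendsto (fun n => c (φ1 (φ2 n))) atTop (𝓝 c0) := hlim.comp hφ2.tendsto_atTop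
    have hstar : ∀ n, ∀ y ∈ Metric.ball (c (φ1 (φ2 n))) ρ, ∀ x ∈ Ωn (φ1 (φ2 n) + N),
        segment ℝ y x ⊆ Ωn (φ1 (φ2 n) + N) := fun n => hc2 _
    have hsw : ∀ C : Set E3, IsCompact C →
        C ⊆ interior {x | Lo (fun n => Ωn (φ1 (φ2 n) + N)) x} →
        ∀ᶠ n in atTop, C ⊆ Ωn (φ1 (φ2 n) + N) := fun C hC hCK =>
      swallow_star hρ hstar (fun n => hM _ (hcb _)) hC hCK
    have hKb : Metric.ball c0 ρ ⊆ {x | Lo (fun n => Ωn (φ1 (φ2 n) + N)) x} :=
      lo_ball (fun n => hc1 _) hlim2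
    have hKs : ∀ y ∈ Metric.ball c0 ρ, ∀ x ∈ {x | Lo (fun n => Ωn (φ1 (φ2 n) + N)) x},
        ∀ a b : ℝ, 0 ≤ a → 0 ≤ b → a + b = 1 →
        a • y + b • x ∈ {x | Lo (fun n => Ωn (φ1 (φ2 n) + N)) x} :=
      fun y hy x hx a b ha hb hab => lo_star hstar hlim2 hy hx ha hb hab
    refine ⟨fun n => φ1 (φ2 n) + N, fun a b hab => ?_,
      interior {x | Lo (fun n => Ωn (φ1 (φ2 n) + N)) x},
      ⟨isOpen_interior, hsubD _ hsub hsw, Or.inr ⟨c0, ?_, ?_⟩⟩,
      mosS_of hD hb ho hsub hd hsw (Or.inr ⟨c0, fun s hs x hx => ?_⟩)⟩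
    · have := (hφ1.comp hφ2) hab
      simp only [Function.comp_apply] at this
      show φ1 (φ2 a) + N < φ1 (φ2 b) + N
      omega
    · exact interior_maximal hKb Metric.isOpen_ball
    · rintro y hy x hx z ⟨a, b, ha, hb, hab, rfl⟩
      rcases hb.eq_or_lt with h0 | h0
      · have ha1 : a = 1 := by linarith
        rw [← h0, ha1, zero_smul, one_smul, add_zero]
        exact interior_maximal hKb Metric.isOpen_ball hy
      · -- the image of a neighbourhood of `x`
        rw [mem_interior_iff_mem_nhds, Metric.mem_nhds_iff] at hx ⊢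
        obtain ⟨ε, hε, hball⟩ := hx
        refine ⟨b * ε, by positivity, fun w hw => ?_⟩
        rw [Metric.mem_ball, dist_eq_norm] at hw
        have h1 : x + b⁻¹ • (w - (a • y + b • x)) ∈ Metric.ball x ε := by
          rw [Metric.mem_ball, dist_eq_norm, add_sub_cancel_left, norm_smul,
            Real.norm_of_nonneg (by positivity), inv_mul_lt_iff₀ h0]
          exact hw
        have h2 := hKs y hy _ (hball h1) a b ha hb hab
        have e : a • y + b • (x + b⁻¹ • (w - (a • y + b • x))) = w := by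
          rw [smul_add, smul_smul, mul_inv_cancel₀ h0.ne', one_smul]
          abel
        rwa [e] at h2
    · have h1 : 0 < s⁻¹ := by positivity
      have h2 : s⁻¹ < 1 := inv_lt_one_of_one_lt₀ hs
      rw [dil_combo (x₀ := c0) hs x]
      exact star_interior hρ hKs hx (by linarith) h1.le (by ring)

end Pool.Agent.H303.DC
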