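import Pool.Agent.H303.DC.Star

set_option autoImplicit false

open MeasureTheory Set Filter Topology
open scoped InnerProductSpace ENNReal

namespace Pool.Agent.H303.DC

open H772R2.NS Pool.Agent.H303.DS
open ContinuousLinearMap (lsmul)

variable {D : Set E3} {κ : E3 → ℝ} {r : ℝ}

theorem dil_cont (x₀ : E3) (s : ℝ) : Continuous (dil x₀ s) := by
  unfold dil
  fun_prop

theorem dil_inv {x₀ : E3} {s : ℝ} (hs : s ≠ 0) (w : E3) : dil x₀ s (dil x₀ s⁻¹ w) = w := by
  unfold dil
  rw [add_sub_cancel_left, smul_smul, mul_inv_cancel₀ hs, one_smul]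
  abel

theorem dil_dist {x₀ : E3} {s : ℝ} (hs : 0 ≤ s) (x y : E3) :
    dist (dil x₀ s x) (dil x₀ s y) = s * dist x y := by
  rw [dist_eq_norm, dist_eq_norm]
  have e : dil x₀ s x - dil x₀ s y = s • (x - y) := by
    unfold dil
    module
  rw [e, norm_smul, Real.norm_of_nonneg hs]

theorem jac_comp_dil {g : E3 → E3} (hg : Differentiable ℝ g) (x₀ : E3) (s : ℝ) (x : E3) :
    jac (fun x => g (dil x₀ s x)) x = s • jac g (dil x₀ s x) := by
  have h1 : HasFDerivAt (dil x₀ s) (s • ContinuousLinearMap.id ℝ E3) x := by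
    unfold dil
    exact ((hasFDerivAt_id x).sub_const x₀ |>.const_smul s).const_add x₀
  have h2 := ((hg (dil x₀ s x)).hasFDerivAt).comp x h1
  have h3 : fderiv ℝ (fun x => g (dil x₀ s x)) x
      = (fderiv ℝ g (dil x₀ s x)).comp (s • ContinuousLinearMap.id ℝ E3) := h2.fderiv
  ext q
  simp only [jac_apply, PiLp.smul_apply, smul_eq_mul]
  rw [h3]
  simp

set_option maxHeartbeats 1000000 in
/-- Fields of `V(D)` which vanish outside of `K` belong to `V(int K)`. -/
theorem star_core {K : Set E3} (hD : MeasurableSet D) (hK : IsCompact K) (x₀ : E3)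
    (hdil : ∀ s : ℝ, 1 < s → ∀ x, dil x₀ s x ∈ K → x ∈ interior K)
    {p : L2V D × L2M D} (hp : p ∈ graphW D)
    (h1 : ∀ᵐ x ∂((volume : Measure E3).restrict D), x ∉ K → p.1 x = 0)
    (h2 : ∀ᵐ x ∂((volume : Measure E3).restrict D), x ∉ K → p.2 x = 0) :
    p ∈ extW D (interior K) := by
  show p ∈ (extW D (interior K) : Set (L2V D × L2M D))
  rw [extW_coe, Metric.mem_closure_iff]
  intro δ hδ
  set f : E3 → E3 := D.indicator p.1 with hf
  set F : E3 → M3 := D.indicator p.2 with hF
  have hfm : MemLp f 2 (volume : Measure E3) := memLp_fn hD p.1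
  have hFm : MemLp F 2 (volume : Measure E3) := memLp_fn hD p.2
  have hf0 : ∀ᵐ x ∂(volume : Measure E3), x ∉ K → f x = 0 := by
    filter_upwards [(ae_restrict_iff' hD).1 h1] with x hx hxK
    by_cases hxD : x ∈ D
    · rw [hf, indicator_of_mem hxD, hx hxD hxK]
    · rw [hf, indicator_of_notMem hxD]
  have hF0 : ∀ᵐ x ∂(volume : Measure E3), x ∉ K → F x = 0 := by
    filter_upwards [(ae_restrict_iff' hD).1 h2] with x hx hxK
    by_cases hxD : x ∈ D
    · rw [hF, indicator_of_mem hxD, hx hxD hxK]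
    · rw [hF, indicator_of_notMem hxD]
  obtain ⟨η1, hη1, hT1⟩ := Tm_lim hfm x₀ (show 0 < δ / 4 by positivity)
  obtain ⟨η2, hη2, hT2⟩ := Tm_lim hFm x₀ (show 0 < δ / 4 by positivity)
  set NF : ℝ := (eLpNorm F 2 (volume : Measure E3)).toReal with hNF
  have hNF0 : 0 ≤ NF := ENNReal.toReal_nonneg
  set ε : ℝ := min (min η1 η2) (δ / (4 * (NF + 1))) with hε
  have hε0 : 0 < ε := by positivity
  set s : ℝ := 1 + ε with hs
  have hs1 : 1 < s := by linarith
  have hs0 : s ≠ 0 := by linarith
  have hεη1 : ε ≤ η1 := (min_le_left _ _).trans (min_le_left _ _)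
  have hεη2 : ε ≤ η2 := (min_le_left _ _).trans (min_le_right _ _)
  have hεN : (s - 1) * NF ≤ δ / 4 := by
    have h3 : ε ≤ δ / (4 * (NF + 1)) := min_le_right _ _
    have e1 : s - 1 = ε := by rw [hs]; ring
    rw [e1]
    have h4 : δ / (4 * (NF + 1)) * (NF + 1) = δ / 4 := by
      have : NF + 1 ≠ 0 := by positivity
      field_simp
    calc ε * NF ≤ δ / (4 * (NF + 1)) * (NF + 1) := by
          gcongr
          linarith
      _ = δ / 4 := h4
  -- the dilated set
  set Ks : Set E3 := dil x₀ s ⁻¹' K with hKs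
  have hKsc : IsCompact Ks := by
    have e1 : Ks = dil x₀ s⁻¹ '' K := by
      ext x
      constructor
      · intro hx
        refine ⟨dil x₀ s x, hx, ?_⟩
        have := dil_inv (x₀ := x₀) (inv_ne_zero hs0) x
        rwa [inv_inv] at this
      · rintro ⟨w, hw, rfl⟩
        show dil x₀ s (dil x₀ s⁻¹ w) ∈ K
        rwa [dil_inv hs0]
    rw [e1]
    exact hK.image (dil_cont _ _)
  have hKsi : Ks ⊆ interior K := fun x hx => hdil s hs1 x hx
  obtain ⟨r0, hr0, hth⟩ := hKsc.exists_cthickening_subset_open isOpen_interior hKsi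
  set r : ℝ := min (min η1 η2) r0 with hr
  have hr' : 0 < r := by positivity
  obtain ⟨κ, hκ⟩ := exists_ker hr'
  set ψ : E3 → E3 := Tm κ x₀ s f with hψ
  have hmolc : ContDiff ℝ ((⊤ : ℕ∞) : WithTop ℕ∞) (mol κ f) := mol_contDiff hκ (memLp_loc hfm)
  have hψsm : ContDiff ℝ ((⊤ : ℕ∞) : WithTop ℕ∞) ψ := by
    refine hmolc.comp ?_
    unfold dil
    fun_prop
  have hψ0 : ∀ x, x ∉ Metric.thickening r Ks → ψ x = 0 := by
    intro x hx
    show mol κ f (dil x₀ s x) = 0
    rw [mol_apply]
    have : (fun w => κ (dil x₀ s x - w) • f w) =ᵐ[volume] fun _ => (0 : E3) := by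
      filter_upwards [hf0] with w hw
      by_cases hwK : w ∈ K
      · have h5 : κ (dil x₀ s x - w) = 0 := by
          by_contra hne
          refine hx ?_
          have h6 : dil x₀ s x - w ∈ Metric.ball (0 : E3) r := hκ.supp hne
          rw [Metric.mem_thickening_iff]
          refine ⟨dil x₀ s⁻¹ w, ?_, ?_⟩
          · show dil x₀ s (dil x₀ s⁻¹ w) ∈ K
            rwa [dil_inv hs0]
          · have h7 : dist (dil x₀ s x) w < r := by
              rw [dist_eq_norm]
              simpa using h6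
            have h8 : dist (dil x₀ s x) (dil x₀ s (dil x₀ s⁻¹ w))
                = s * dist x (dil x₀ s⁻¹ w) := dil_dist (by linarith) _ _
            rw [dil_inv hs0] at h8
            have h9 : 0 ≤ dist x (dil x₀ s⁻¹ w) := dist_nonneg
            nlinarith
        rw [h5, zero_smul]
      · rw [hw hwK, smul_zero]
    rw [integral_congr_ae this, integral_zero]
  have hsup : tsupport ψ ⊆ Metric.cthickening r Ks := by
    refine closure_minimal ?_ Metric.isClosed_cthickening
    intro x hx
    by_contra hcon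
    exact hx (hψ0 x fun h => hcon (Metric.thickening_subset_cthickening _ _ h))
  have hψc : HasCompactSupport ψ :=
    (hKsc.cthickening).of_isClosed_subset (isClosed_tsupport ψ) hsup
  have hjac : ∀ x, jac ψ x = s • Tm κ x₀ s F x := by
    intro x
    have h5 := jac_comp_dil (hmolc.differentiable (by simp)) x₀ s x
    have h6 : jac ψ x = s • jac (mol κ f) (dil x₀ s x) := h5
    rw [h6, hf, jac_mol hκ hD hp]
    rfl
  have htest : IsTest (interior K) ψ := by
    refine ⟨hψsm, hψc, hsup.trans ((Metric.cthickening_mono (min_le_right _ _) _).trans hth),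
      fun x => ?_⟩
    simp only [hjac, PiLp.smul_apply, smul_eq_mul]
    rw [← Finset.mul_sum]
    have := trace_mol hκ hD hp (dil x₀ s x)
    have e : ∀ i : Fin 3, Tm κ x₀ s F x (i, i) = mol κ (D.indicator p.2) (dil x₀ s x) (i, i) :=
      fun i => rfl
    simp only [e]
    rw [this, mul_zero]
  have hψm : MemLp ψ 2 (volume : Measure E3) := htest.memLp 2
  have hjm : MemLp (jac ψ) 2 (volume : Measure E3) := htest.jac_memLp 2
  refine ⟨((hψm.restrict D).toLp ψ, (hjm.restrict D).toLp (jac ψ)),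
    ⟨ψ, htest, MemLp.coeFn_toLp (hψm.restrict D), MemLp.coeFn_toLp (hjm.restrict D)⟩, ?_⟩
  -- the distances
  have key : ∀ {E : Type} [NormedAddCommGroup E] (v : Lp E 2 ((volume : Measure E3).restrict D))
      (g : E3 → E) (hg : MemLp g 2 ((volume : Measure E3).restrict D)) (a : ℝ), 0 ≤ a →
      eLpNorm (fun x => g x - D.indicator v x) 2 (volume : Measure E3) ≤ ENNReal.ofReal a →
      dist v (hg.toLp g) ≤ a := by
    intro E _ v g hg a ha h
    rw [dist_comm, dist_eq_norm, Lp.norm_def]
    refine ENNReal.toReal_le_of_le_ofReal ha (le_trans ?_ h)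
    have e1 : ((hg.toLp g - v : Lp E 2 ((volume : Measure E3).restrict D)) : E3 → E)
        =ᵐ[volume.restrict D] fun x => g x - D.indicator v x := by
      filter_upwards [Lp.coeFn_sub (hg.toLp g) v, hg.coeFn_toLp, ae_restrict_mem hD]
        with x k1 k2 k3
      rw [k1, Pi.sub_apply, k2, indicator_of_mem k3]
    rw [eLpNorm_congr_ae e1]
    exact eLpNorm_mono_measure _ Measure.restrict_le_self
  have d1 : dist p.1 ((hψm.restrict D).toLp ψ) ≤ δ / 4 :=
    key p.1 ψ _ _ (by positivity) (hT1 κ r s hκ ((min_le_left _ _).trans (min_le_left _ _)) hs1.le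
      (by linarith))
  have hTF := Tm_memLp hκ hFm x₀ hs1.le
  have d2 : dist p.2 ((hjm.restrict D).toLp (jac ψ)) ≤ δ / 2 := by
    refine key p.2 (jac ψ) _ _ (by positivity) ?_
    have e : (fun x => jac ψ x - D.indicator p.2 x)
        = (fun x => Tm κ x₀ s F x - F x) + ((s - 1) • Tm κ x₀ s F) := by
      funext x
      simp only [Pi.add_apply, Pi.smul_apply]
      rw [hjac, hF]
      module
    rw [e]
    have h5 : AEStronglyMeasurable (fun x => Tm κ x₀ s F x - F x) (volume : Measure E3) :=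
      (hTF.1.sub hFm).aestronglyMeasurable
    refine (eLpNorm_add_le h5 (hTF.1.const_smul (s - 1)).aestronglyMeasurable
      (by norm_num)).trans ?_
    have e3 : ENNReal.ofReal (δ / 2) = ENNReal.ofReal (δ / 4) + ENNReal.ofReal (δ / 4) := by
      rw [← ENNReal.ofReal_add (by positivity) (by positivity)]
      congr 1
      ring
    rw [e3]
    refine add_le_add (hT2 κ r s hκ ((min_le_left _ _).trans (min_le_right _ _)) hs1.le
      (by linarith)) ?_
    rw [eLpNorm_const_smul]
    have e4 : eLpNorm F 2 (volume : Measure E3) = ENNReal.ofReal NF := by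
      rw [hNF, ENNReal.ofReal_toReal hFm.eLpNorm_ne_top]
    have e5 : ‖s - 1‖ₑ = ENNReal.ofReal (s - 1) := by
      rw [Real.enorm_eq_ofReal (by linarith)]
    rw [e5]
    calc ENNReal.ofReal (s - 1) * eLpNorm (Tm κ x₀ s F) 2 volume
        ≤ ENNReal.ofReal (s - 1) * ENNReal.ofReal NF := by
          gcongr
          rw [← e4]
          exact hTF.2
      _ = ENNReal.ofReal ((s - 1) * NF) := by rw [← ENNReal.ofReal_mul (by linarith)]
      _ ≤ ENNReal.ofReal (δ / 4) := ENNReal.ofReal_le_ofReal hεN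
  rw [Prod.dist_eq]
  exact max_lt (lt_of_le_of_lt d1 (by linarith)) (lt_of_le_of_lt d2 (by linarith))

end Pool.Agent.H303.DC
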