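import Pool.Agent.H303.DS.PubDef

/-!
Public definitions: a class of open sets, and the distance of data in different open sets.
-/

set_option autoImplicit false

open MeasureTheory Set Filter Topology
open scoped InnerProductSpace ENNReal ContDiff

namespace Pool.Agent.H303.DCP

open H772R2.NS.Pub Pool.Agent.X187.NSD

/-- The open subsets of `D` which are convex, or which contain a ball of radius `ρ₀` and are
star-shaped with respect to all its points. -/
structure Shape (D : Set R3) (ρ₀ : ℝ) (Ω : Set R3) : Prop where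
  isOpen : IsOpen Ω
  sub : Ω ⊆ D
  shape : Convex ℝ Ω ∨ ∃ c : R3, Metric.ball c ρ₀ ⊆ Ω ∧
    ∀ y ∈ Metric.ball c ρ₀, ∀ x ∈ Ω, segment ℝ y x ⊆ Ω

/-- The square of the distance in `L²(D)` of `f ∈ L²(Ω)` and `g ∈ L²(Ω')`, extended by zero. -/
noncomputable def gap (D : Set R3) {Ω Ω' : Set R3} {E : Type} [NormedAddCommGroup E]
    (f : L2 Ω E) (g : L2 Ω' E) : ℝ :=
  ∫ x in D, ‖Ω.indicator f.fn x - Ω'.indicator g.fn x‖ ^ 2

/-- The square of the distance of data in `Ω` and in `Ω'`, extended by zero, in the norm the square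
of which is the size. -/
noncomputable def dataGap (D : Set R3) (T : ℝ) {Ω Ω' : Set R3} (d : Data Ω) (e : Data Ω') : ℝ :=
  gap D d.G₀ e.G₀ + gap D (d.F 0) (e.F 0) + (∫ t in (0 : ℝ)..T, gap D (d.F' t) (e.F' t))
    + gap D d.g e.g

end Pool.Agent.H303.DCP
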