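import Pool.Agent.H303.DC.Cls
import Pool.Agent.H303.DC.Abs
import Pool.Agent.H303.DC.PubDef
import Pool.Agent.H303.DS.Fin

set_option autoImplicit false

open MeasureTheory Set Filter Topology
open scoped InnerProductSpace ENNReal

namespace Pool.Agent.H303.DC

open H772R2.NS H772R2.NS.Pub H772R2.NSR
open Pool.Agent.W795.TQ Pool.Agent.X187.NSD
open Pool.Agent.X187.NSC hiding fam_close weak_limit core open_ultra
open Pool.Agent.H303.DS Pool.Agent.H303.DSP Pool.Agent.H303.DCP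

section

variable {H K H' K' : Type} [NormedAddCommGroup H] [InnerProductSpace ℝ H] [CompleteSpace H]
  [NormedAddCommGroup K] [InnerProductSpace ℝ K] [CompleteSpace K]
  [NormedAddCommGroup H'] [InnerProductSpace ℝ H'] [CompleteSpace H']
  [NormedAddCommGroup K'] [InnerProductSpace ℝ K'] [CompleteSpace K']
  {W : Submodule ℝ (H × K)} {m : H → K} {W' : Submodule ℝ (H' × K')} {m' : H' → K'}
  {eH : H →L[ℝ] H'} {rH : H' →L[ℝ] H} {eK : K →L[ℝ] K'} {rK : K' →L[ℝ] K} {ν T : ℝ}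

omit [CompleteSpace H] [CompleteSpace K] [CompleteSpace H'] [CompleteSpace K'] in
theorem proj_sq {A B : Type} [NormedAddCommGroup A] [InnerProductSpace ℝ A]
    [NormedAddCommGroup B] [InnerProductSpace ℝ B] {e : A →L[ℝ] B} {r : B →L[ℝ] A}
    (adj : ∀ x y, ⟪e x, y⟫_ℝ = ⟪x, r y⟫_ℝ) (re : ∀ x, r (e x) = x) (y : B) :
    ‖y - e (r y)‖ ^ 2 = ‖y‖ ^ 2 - ‖r y‖ ^ 2 := by
  have h1 : ⟪e (r y), y⟫_ℝ = ‖r y‖ ^ 2 := by rw [adj, real_inner_self_eq_norm_sq]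
  have h2 : ‖e (r y)‖ ^ 2 = ‖r y‖ ^ 2 := by
    rw [← real_inner_self_eq_norm_sq, adj, re, real_inner_self_eq_norm_sq]
  rw [norm_sub_sq_real, real_inner_comm, h1, h2]
  ring

/-- If the restriction does not decrease the size, then the data are extensions by zero. -/
theorem Emb.dsq_of_size (E : Emb W m W' m' eH rH eK rK) (hT : 0 ≤ T) {e : Dat H' K'}
    (hF : FH T e.F e.F1) (hsz : e.size T ≤ (emb rH rK e).size T) (d : Dat H' K') :
    d.dsq T (emb eH eK (emb rH rK e)) = d.dsq T e := by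
  have p1 := proj_sq E.adjK E.reK e.z
  have p2 := proj_sq E.adjK E.reK (e.F 0)
  have p3 := proj_sq E.adjH E.reH e.g
  have hm1 : MemLp (fun s => e.F1 s) 2 (volume.restrict (Ioc 0 T)) := hF.memLp
  have hm2 : MemLp (fun s => rK (e.F1 s)) 2 (volume.restrict (Ioc 0 T)) := (FH.map rK hF).memLp
  have i1 : Integrable (fun s => ‖e.F1 s‖ ^ 2) (volume.restrict (Ioc 0 T)) :=
    (memLp_two_iff_integrable_sq_norm hm1.aestronglyMeasurable).mp hm1
  have i2 : Integrable (fun s => ‖rK (e.F1 s)‖ ^ 2) (volume.restrict (Ioc 0 T)) :=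
    (memLp_two_iff_integrable_sq_norm hm2.aestronglyMeasurable).mp hm2
  have p4 : (∫ s in (0 : ℝ)..T, ‖e.F1 s - eK (rK (e.F1 s))‖ ^ 2)
      = (∫ s in (0 : ℝ)..T, ‖e.F1 s‖ ^ 2) - ∫ s in (0 : ℝ)..T, ‖rK (e.F1 s)‖ ^ 2 := by
    rw [intervalIntegral.integral_of_le hT, intervalIntegral.integral_of_le hT,
      intervalIntegral.integral_of_le hT, ← integral_sub i1 i2]
    exact integral_congr_ae (Eventually.of_forall fun s => proj_sq E.adjK E.reK (e.F1 s))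
  have q4 : 0 ≤ ∫ s in (0 : ℝ)..T, ‖e.F1 s - eK (rK (e.F1 s))‖ ^ 2 :=
    intervalIntegral.integral_nonneg hT fun s _ => by positivity
  have hsz' : ‖e.z‖ ^ 2 + ‖e.F 0‖ ^ 2 + (∫ s in (0 : ℝ)..T, ‖e.F1 s‖ ^ 2) + ‖e.g‖ ^ 2
      ≤ ‖rK e.z‖ ^ 2 + ‖rK (e.F 0)‖ ^ 2 + (∫ s in (0 : ℝ)..T, ‖rK (e.F1 s)‖ ^ 2)
        + ‖rH e.g‖ ^ 2 := hsz
  have q1 := sq_nonneg ‖e.z - eK (rK e.z)‖
  have q2 := sq_nonneg ‖e.F 0 - eK (rK (e.F 0))‖
  have q3 := sq_nonneg ‖e.g - eH (rH e.g)‖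
  have z1 : eK (rK e.z) = e.z := by
    have : ‖e.z - eK (rK e.z)‖ = 0 := by
      have h : ‖e.z - eK (rK e.z)‖ ^ 2 = 0 := by linarith
      exact pow_eq_zero_iff (two_ne_zero) |>.1 h
    exact (sub_eq_zero.1 (norm_eq_zero.1 this)).symm
  have z2 : eK (rK (e.F 0)) = e.F 0 := by
    have : ‖e.F 0 - eK (rK (e.F 0))‖ = 0 := by
      have h : ‖e.F 0 - eK (rK (e.F 0))‖ ^ 2 = 0 := by linarith
      exact pow_eq_zero_iff (two_ne_zero) |>.1 h
    exact (sub_eq_zero.1 (norm_eq_zero.1 this)).symm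
  have z3 : eH (rH e.g) = e.g := by
    have : ‖e.g - eH (rH e.g)‖ = 0 := by
      have h : ‖e.g - eH (rH e.g)‖ ^ 2 = 0 := by linarith
      exact pow_eq_zero_iff (two_ne_zero) |>.1 h
    exact (sub_eq_zero.1 (norm_eq_zero.1 this)).symm
  have z4 : ∀ᵐ s ∂(volume.restrict (Ioc 0 T)), eK (rK (e.F1 s)) = e.F1 s := by
    have h0 : ∫ s in Ioc 0 T, ‖e.F1 s - eK (rK (e.F1 s))‖ ^ 2 = 0 := by
      rw [← intervalIntegral.integral_of_le hT]
      linarith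
    have hm3 : MemLp (fun s => e.F1 s - eK (rK (e.F1 s))) 2 (volume.restrict (Ioc 0 T)) :=
      hm1.sub (eK.comp_memLp' hm2)
    have i3 : Integrable (fun s => ‖e.F1 s - eK (rK (e.F1 s))‖ ^ 2)
        (volume.restrict (Ioc 0 T)) :=
      (memLp_two_iff_integrable_sq_norm hm3.aestronglyMeasurable).mp hm3
    have h1 := (integral_eq_zero_iff_of_nonneg (fun s => by positivity) i3).1 h0
    filter_upwards [h1] with s hs
    have h2 : ‖e.F1 s - eK (rK (e.F1 s))‖ ^ 2 = 0 := hs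
    have h3 : ‖e.F1 s - eK (rK (e.F1 s))‖ = 0 := pow_eq_zero_iff (two_ne_zero) |>.1 h2
    exact (sub_eq_zero.1 (norm_eq_zero.1 h3)).symm
  show ‖d.z - eK (rK e.z)‖ ^ 2 + ‖d.F 0 - eK (rK (e.F 0))‖ ^ 2
      + (∫ s in (0 : ℝ)..T, ‖d.F1 s - eK (rK (e.F1 s))‖ ^ 2) + ‖d.g - eH (rH e.g)‖ ^ 2
    = ‖d.z - e.z‖ ^ 2 + ‖d.F 0 - e.F 0‖ ^ 2 + (∫ s in (0 : ℝ)..T, ‖d.F1 s - e.F1 s‖ ^ 2)
      + ‖d.g - e.g‖ ^ 2
  rw [z1, z2, z3]
  congr 2
  rw [intervalIntegral.integral_of_le hT, intervalIntegral.integral_of_le hT]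
  refine integral_congr_ae ?_
  filter_upwards [z4] with s hs
  rw [hs]

theorem Emb.good_back (E : Emb W m W' m' eH rH eK rK) {d : Dat H' K'}
    (hd : Adm W' m' ν T d) (h : Good W m ν T (emb rH rK d)) : Good W' m' ν T d := by
  obtain ⟨u, u1, z, z1, h1, h2⟩ := h
  refine ⟨_, _, _, _, E.str (F' := d.F) (fun t _ => rfl) h1, ?_⟩
  show eH (u 0) = d.x
  rw [h2]
  exact E.erH _ hd.mem

theorem Emb.good_fwd (E : Emb W m W' m' eH rH eK rK) {d : Dat H K}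
    (h : Good W' m' ν T (emb eH eK d)) : Good W m ν T d := by
  obtain ⟨u, u1, z, z1, h1, h2⟩ := h
  have h4 := E.str_back h1
  have e : (fun t => rK ((emb eH eK d).F t)) = d.F := by
    funext t
    exact E.reK _
  rw [e] at h4
  refine ⟨_, _, _, _, h4, ?_⟩
  show rH (u 0) = d.x
  rw [h2]
  exact E.reH _

end

theorem gap_ext {E : Type} [NormedAddCommGroup E] [InnerProductSpace ℝ E] {D Ω Ω' : Set E3}
    (hm : MeasurableSet Ω) (h : Ω ⊆ D) (hm' : MeasurableSet Ω') (h' : Ω' ⊆ D)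
    (f : Lp E 2 ((volume : Measure E3).restrict Ω))
    (g : Lp E 2 ((volume : Measure E3).restrict Ω')) :
    ‖DS.ext E hm h f - DS.ext E hm' h' g‖ ^ 2
      = ∫ x in D, ‖Ω.indicator (f : E3 → E) x - Ω'.indicator (g : E3 → E) x‖ ^ 2 := by
  rw [← real_inner_self_eq_norm_sq, L2.inner_def]
  refine integral_congr_ae ?_
  filter_upwards [Lp.coeFn_sub (DS.ext E hm h f) (DS.ext E hm' h' g), ext_coe hm h f,
    ext_coe hm' h' g] with x h1 h2 h3
  rw [h1, Pi.sub_apply, h2, h3, real_inner_self_eq_norm_sq]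

theorem cls_iff {D Ω : Set E3} {ρ : ℝ} :
    Shape (show Set R3 from D) ρ (show Set R3 from Ω) ↔ Cls D ρ Ω :=
  ⟨fun h => ⟨h.isOpen, h.sub, h.shape⟩, fun h => ⟨h.op, h.sub, h.shape⟩⟩

theorem dataGap_eq {D Ω Ω' : Set E3} (hm : MeasurableSet Ω) (h : Ω ⊆ D) (hm' : MeasurableSet Ω')
    (h' : Ω' ⊆ D) (T : ℝ) (d : Data (show Set R3 from Ω)) (e : Data (show Set R3 from Ω')) :
    dataGap (show Set R3 from D) T d e
      = (emb (DS.ext E3 hm h) (DS.ext M3 hm h) (toDat d)).dsq T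
        (emb (DS.ext E3 hm' h') (DS.ext M3 hm' h') (toDat e)) := by
  have g1 := gap_ext (E := M3) hm h hm' h' (toDat d).z (toDat e).z
  have g2 := gap_ext (E := M3) hm h hm' h' ((toDat d).F 0) ((toDat e).F 0)
  have g3 := fun t => gap_ext (E := M3) hm h hm' h' ((toDat d).F1 t) ((toDat e).F1 t)
  have g4 := gap_ext (E := E3) hm h hm' h' (toDat d).g (toDat e).g
  show _ = ‖DS.ext M3 hm h (toDat d).z - DS.ext M3 hm' h' (toDat e).z‖ ^ 2
    + ‖DS.ext M3 hm h ((toDat d).F 0) - DS.ext M3 hm' h' ((toDat e).F 0)‖ ^ 2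
    + (∫ t in (0 : ℝ)..T, ‖DS.ext M3 hm h ((toDat d).F1 t)
        - DS.ext M3 hm' h' ((toDat e).F1 t)‖ ^ 2)
    + ‖DS.ext E3 hm h (toDat d).g - DS.ext E3 hm' h' (toDat e).g‖ ^ 2
  simp only [g3]
  rw [g1, g2, g4]
  rfl

/-- The dichotomy. -/
theorem main {D : Set E3} (hD : IsOpen D) (hb : Bornology.IsBounded D) {ρ₀ : ℝ} (hρ₀ : 0 < ρ₀)
    {ν T : ℝ} (hν : 0 < ν) (hT : 0 < T) :
    (∀ R : ℝ, ∃ L : ℝ, ∀ Ω, Shape (show Set R3 from D) ρ₀ Ω → RegularWithBound Ω ν T R L) ∨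
    ∃ ρ : ℝ, 0 < ρ ∧
      (∀ R : ℝ, R < ρ → ∃ L : ℝ, ∀ Ω, Shape (show Set R3 from D) ρ₀ Ω →
        RegularWithBound Ω ν T R L) ∧
      (∃ Ω, Shape (show Set R3 from D) ρ₀ Ω ∧ ∃ e : Data Ω, e.Admissible ν T ∧ ¬ e.Regular ν T ∧
        e.size T = ρ) ∧
      ∀ (Ωn : ℕ → Set R3) (d : ∀ n, Data (Ωn n)), (∀ n, Shape (show Set R3 from D) ρ₀ (Ωn n)) →
        (∀ n, (d n).Admissible ν T) → (∀ n, ¬ (d n).Regular ν T) →
        Tendsto (fun n => (d n).size T) atTop (𝓝 ρ) →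
        ∃ φ : ℕ → ℕ, StrictMono φ ∧ ∃ Ω, Shape (show Set R3 from D) ρ₀ Ω ∧
          DomConv (show Set R3 from D) (fun n => Ωn (φ n)) Ω ∧
          ∃ e : Data Ω, e.Admissible ν T ∧ ¬ e.Regular ν T ∧ e.size T = ρ ∧
            Tendsto (fun n => dataGap (show Set R3 from D) T (d (φ n)) e) atTop (𝓝 0) := by
  obtain ⟨c, hc, hU⟩ := Pool.Agent.W52.TQ.proof_univ
  obtain ⟨C, Fr0⟩ := exists_frame hD hb
  let α : Type := {Ω : Set E3 // Cls D ρ₀ Ω}
  let Wf : α → Submodule ℝ (L2V D × L2M D) := fun a => extW D a.1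
  have key := dich_abs (α := α) (Wf := Wf) (ν := ν) (T := T) Fr0 (hU D hD) hν hT
    (rellich_W hD hb) (fun a => extW_le a.2.sub) (fun a => extW_closed D a.1) (fun a => by
      obtain ⟨φ, h1, Ω, h2, h3⟩ := cls_compact hD hb hρ₀ (fun n => (a n).1) fun n => (a n).2
      exact ⟨φ, h1, ⟨Ω, h2⟩, h3⟩)
  have em : ∀ a : α, Emb (graphW a.1) tensL (extW D a.1) tensL
      (DS.ext E3 a.2.op.measurableSet a.2.sub) (DS.res E3 a.2.sub)
      (DS.ext M3 a.2.op.measurableSet a.2.sub) (DS.res M3 a.2.sub) := fun a =>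
    emb_ext a.2.op.measurableSet hD.measurableSet a.2.sub
  have hreg : ∀ (R L : ℝ), (∀ a : α, RegB (Wf a) tensL ν T R L) →
      ∀ Ω, Shape (show Set R3 from D) ρ₀ Ω → RegularWithBound Ω ν T R L := fun R L h Ω hΩ =>
    (regularWith_iff (Ω := Ω) hΩ.isOpen hD hb hΩ.sub hT R L).mpr (h ⟨Ω, cls_iff.1 hΩ⟩)
  have hadm : ∀ (a : α) (d : Data (show Set R3 from a.1)), d.Admissible ν T →
      Adm (Wf a) tensL ν T (emb (DS.ext E3 a.2.op.measurableSet a.2.sub)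
        (DS.ext M3 a.2.op.measurableSet a.2.sub) (toDat d)) := fun a d hd =>
    (em a).adm ((adm_iff a.2.op d).mpr hd)
  have hbad : ∀ (a : α) (d : Data (show Set R3 from a.1)), d.Admissible ν T →
      ¬ d.Regular ν T → ¬ Good (Wf a) tensL ν T (emb (DS.ext E3 a.2.op.measurableSet a.2.sub)
        (DS.ext M3 a.2.op.measurableSet a.2.sub) (toDat d)) := fun a d hd hr hg => by
    obtain ⟨C', Fr⟩ := exists_frame a.2.op (hb.subset a.2.sub)
    exact hr ((good_iff a.2.op Fr hT d ((adm_iff a.2.op d).mpr hd)).mp (Emb.good_fwd (em a) hg))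
  -- restriction of the minimal data
  have hres : ∀ (ρ : ℝ), (∀ R : ℝ, R < ρ → ∃ L : ℝ, ∀ a, RegB (Wf a) tensL ν T R L) →
      ∀ (a : α) (e : Dat (L2V D) (L2M D)), Adm (Wf a) tensL ν T e →
      ¬ Good (Wf a) tensL ν T e → e.size T = ρ →
      ∃ e' : Data (show Set R3 from a.1), e'.Admissible ν T ∧ ¬ e'.Regular ν T ∧
        e'.size T = ρ ∧ ∀ d : Dat (L2V D) (L2M D), d.dsq T
          (emb (DS.ext E3 a.2.op.measurableSet a.2.sub)
            (DS.ext M3 a.2.op.measurableSet a.2.sub) (toDat e')) = d.dsq T e := by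
    intro ρ hρ a e he hbe hse
    obtain ⟨C', Fr⟩ := exists_frame a.2.op (hb.subset a.2.sub)
    have h1 := (em a).adm_back he
    have h2 : ¬ Good (graphW a.1) tensL ν T (emb (DS.res E3 a.2.sub) (DS.res M3 a.2.sub) e) :=
      fun h => hbe (Emb.good_back (em a) he h)
    have h3 : ((emb (DS.res E3 a.2.sub) (DS.res M3 a.2.sub) e)).size T ≤ ρ :=
      ((em a).size_back hT.le he.force).trans hse.le
    have h4 : ρ ≤ ((emb (DS.res E3 a.2.sub) (DS.res M3 a.2.sub) e)).size T := by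
      by_contra hcon
      push Not at hcon
      obtain ⟨L, hL⟩ := hρ _ hcon
      obtain ⟨u, u1, z, z1, k1, k2, -⟩ := ((em a).regB_iff hT.le _ L).mpr (hL a) _ h1 le_rfl
      exact h2 ⟨u, u1, z, z1, k1, k2⟩
    have hA : (ofDat (emb (DS.res E3 a.2.sub) (DS.res M3 a.2.sub) e)).Admissible ν T :=
      (adm_iff a.2.op (ofDat (emb (DS.res E3 a.2.sub) (DS.res M3 a.2.sub) e))).mp h1
    refine ⟨ofDat (emb (DS.res E3 a.2.sub) (DS.res M3 a.2.sub) e), hA, fun hr => ?_,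
      le_antisymm h3 h4, fun d => ?_⟩
    · exact h2 ((good_iff a.2.op Fr hT
        (ofDat (emb (DS.res E3 a.2.sub) (DS.res M3 a.2.sub) e)) h1).mpr hr)
    · exact Emb.dsq_of_size (em a) hT.le he.force (hse.le.trans h4) d
  rcases key with key | ⟨ρ, hρ0, k1, k2, k3⟩
  · left
    intro R
    obtain ⟨L, hL⟩ := key R
    exact ⟨L, hreg R L hL⟩
  right
  refine ⟨ρ, hρ0, fun R hR => ?_, ?_, ?_⟩
  · obtain ⟨L, hL⟩ := k1 R hR
    exact ⟨L, hreg R L hL⟩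
  · obtain ⟨a, e, h1, h2, h3⟩ := k2
    obtain ⟨e', h4, h5, h6, -⟩ := hres ρ k1 a e h1 h2 h3
    exact ⟨a.1, cls_iff.2 a.2, e', h4, h5, h6⟩
  · intro Ωn d hsh had hba hsz
    let a : ℕ → α := fun n => ⟨Ωn n, cls_iff.1 (hsh n)⟩
    have hsize : ∀ n, (emb (DS.ext E3 (a n).2.op.measurableSet (a n).2.sub)
        (DS.ext M3 (a n).2.op.measurableSet (a n).2.sub) (toDat (d n))).size T
        = (d n).size T := fun n => (em (a n)).size _
    obtain ⟨φ, b, e, m1, m2, m3, m4, m5, m6⟩ := k3 a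
      (fun n => emb (DS.ext E3 (a n).2.op.measurableSet (a n).2.sub)
        (DS.ext M3 (a n).2.op.measurableSet (a n).2.sub) (toDat (d n)))
      (fun n => hadm (a n) (d n) (had n)) (fun n => hbad (a n) (d n) (had n) (hba n))
      (hsz.congr fun n => (hsize n).symm)
    obtain ⟨e', h4, h5, h6, h7⟩ := hres ρ k1 b e m3 m4 m5
    refine ⟨φ, m1, b.1, cls_iff.2 b.2, domConv_of_mosS m2, e', h4, h5, h6, ?_⟩
    refine m6.congr fun n => ?_
    rw [← h7]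
    exact (dataGap_eq (a (φ n)).2.op.measurableSet (a (φ n)).2.sub b.2.op.measurableSet b.2.sub T
      (d (φ n)) e').symm

end Pool.Agent.H303.DC
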