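import Pool.Agent.H303.DS.Ext

/-!
Mollification and dilation in `L²`.
-/

set_option autoImplicit false

open MeasureTheory Set Filter Topology
open scoped InnerProductSpace ENNReal ContDiff Convolution

namespace Pool.Agent.H303.DC

open H772R2.NS
open ContinuousLinearMap (lsmul)

variable {E : Type} [NormedAddCommGroup E] [NormedSpace ℝ E]

/-- The mollification of `g` with the kernel `κ`. -/
noncomputable def mol (κ : E3 → ℝ) (g : E3 → E) : E3 → E :=
  MeasureTheory.convolution κ g (lsmul ℝ ℝ) volume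

/-- Mollifiers. -/
structure Ker (κ : E3 → ℝ) (r : ℝ) : Prop where
  smooth : ContDiff ℝ ∞ κ
  compact : HasCompactSupport κ
  nonneg : ∀ x, 0 ≤ κ x
  int : ∫ x, κ x = 1
  supp : Function.support κ ⊆ Metric.ball 0 r

theorem exists_ker {r : ℝ} (hr : 0 < r) : ∃ κ : E3 → ℝ, Ker κ r := by
  let f : ContDiffBump (0 : E3) := ⟨r / 2, r, by positivity, by linarith⟩
  refine ⟨f.normed volume, f.contDiff_normed, f.hasCompactSupport_normed, f.nonneg_normed,
    f.integral_normed, ?_⟩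
  rw [f.support_normed_eq]

variable {κ : E3 → ℝ} {r : ℝ}

theorem Ker.integrable (h : Ker κ r) : Integrable κ :=
  h.smooth.continuous.integrable_of_hasCompactSupport h.compact

theorem mol_apply (κ : E3 → ℝ) (g : E3 → E) (x : E3) : mol κ g x = ∫ w, κ (x - w) • g w :=
  convolution_lsmul_swap

theorem Ker.bdd (h : Ker κ r) : ∃ M, ∀ x, ‖κ x‖ ≤ M := by
  obtain ⟨M, hM⟩ := h.smooth.continuous.bounded_above_of_compact_support h.compact
  exact ⟨M, hM⟩

theorem Ker.shift_int (h : Ker κ r) (x : E3) : ∫ w, κ (x - w) = 1 := by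
  rw [integral_sub_left_eq_self κ volume x, h.int]

theorem Ker.shift_integrable (h : Ker κ r) (x : E3) : Integrable (fun w => κ (x - w)) :=
  h.integrable.comp_sub_left x

theorem Ker.sq_integrable (h : Ker κ r) {g : E3 → E} (hg : MemLp g 2) (x : E3) :
    Integrable (fun w => κ (x - w) * ‖g w‖ ^ 2) := by
  obtain ⟨M, hM⟩ := h.bdd
  have h1 : Integrable (fun w => ‖g w‖ ^ 2) :=
    (memLp_two_iff_integrable_sq_norm hg.aestronglyMeasurable).mp hg
  refine h1.bdd_mul (c := M) ?_ (Eventually.of_forall fun w => hM _)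
  exact (h.smooth.continuous.comp (continuous_const.sub continuous_id)).aestronglyMeasurable

theorem Ker.nrm_integrable (h : Ker κ r) {g : E3 → E} (hg : MemLp g 2) (x : E3) :
    Integrable (fun w => κ (x - w) * ‖g w‖) := by
  refine ((h.shift_integrable x).add (h.sq_integrable hg x)).mono' ?_
    (Eventually.of_forall fun w => ?_)
  · exact ((h.smooth.continuous.comp
      (continuous_const.sub continuous_id)).aestronglyMeasurable).mul hg.aestronglyMeasurable.norm
  · have h1 := h.nonneg (x - w)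
    rw [Real.norm_of_nonneg (by positivity)]
    simp only [Pi.add_apply]
    nlinarith [sq_nonneg (‖g w‖ - 1), mul_nonneg h1 (sq_nonneg (‖g w‖ - 1)), norm_nonneg (g w),
      mul_nonneg h1 (norm_nonneg (g w))]

theorem mol_norm_le (h : Ker κ r) (g : E3 → E) (x : E3) :
    ‖mol κ g x‖ ≤ ∫ w, κ (x - w) * ‖g w‖ := by
  rw [mol_apply]
  refine (norm_integral_le_integral_norm _).trans (le_of_eq ?_)
  refine integral_congr_ae (Eventually.of_forall fun w => ?_)
  show ‖κ (x - w) • g w‖ = κ (x - w) * ‖g w‖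
  rw [norm_smul, Real.norm_of_nonneg (h.nonneg _)]

theorem mol_sq (h : Ker κ r) {g : E3 → E} (hg : MemLp g 2) (x : E3) :
    ‖mol κ g x‖ ^ 2 ≤ mol κ (fun w => ‖g w‖ ^ 2) x := by
  set A : ℝ := ∫ w, κ (x - w) * ‖g w‖ with hA
  set B : ℝ := ∫ w, κ (x - w) * ‖g w‖ ^ 2 with hB
  have e1 : mol κ (fun w => ‖g w‖ ^ 2) x = B := by
    rw [mol_apply]
    rfl
  have h1 : ‖mol κ g x‖ ≤ A := mol_norm_le h g x
  have h2 : 0 ≤ ∫ w, κ (x - w) * (‖g w‖ - A) ^ 2 :=
    integral_nonneg fun w => mul_nonneg (h.nonneg _) (sq_nonneg _)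
  have h3 : ∫ w, κ (x - w) * (‖g w‖ - A) ^ 2 = B - 2 * A * A + A ^ 2 := by
    have e2 : (fun w => κ (x - w) * (‖g w‖ - A) ^ 2)
        = fun w => (κ (x - w) * ‖g w‖ ^ 2 - 2 * A * (κ (x - w) * ‖g w‖)) + A ^ 2 * κ (x - w) := by
      funext w
      ring
    have i1 := h.sq_integrable hg x
    have i2 : Integrable (fun w => 2 * A * (κ (x - w) * ‖g w‖)) :=
      (h.nrm_integrable hg x).const_mul _
    have i3 : Integrable (fun w => A ^ 2 * κ (x - w)) := (h.shift_integrable x).const_mul _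
    have i4 : Integrable (fun w => κ (x - w) * ‖g w‖ ^ 2 - 2 * A * (κ (x - w) * ‖g w‖)) :=
      i1.sub i2
    rw [e2, integral_add i4 i3, integral_sub i1 i2, integral_const_mul, integral_const_mul,
      h.shift_int x]
    ring
  rw [e1]
  have h4 := norm_nonneg (mol κ g x)
  nlinarith

theorem mol_continuous (h : Ker κ r) {g : E3 → E} (hg : LocallyIntegrable g) :
    Continuous (mol κ g) :=
  h.compact.continuous_convolution_left _ h.smooth.continuous hg

theorem memLp_loc {g : E3 → E} (hg : MemLp g 2) : LocallyIntegrable g :=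
  hg.locallyIntegrable (by norm_num)

theorem mol_memLp (h : Ker κ r) {g : E3 → E} (hg : MemLp g 2) :
    MemLp (mol κ g) 2 ∧ ∫ x, ‖mol κ g x‖ ^ 2 ≤ ∫ x, ‖g x‖ ^ 2 := by
  have h1 : Integrable (fun w => ‖g w‖ ^ 2) :=
    (memLp_two_iff_integrable_sq_norm hg.aestronglyMeasurable).mp hg
  have hc := mol_continuous h (memLp_loc hg)
  have h2 : Integrable (mol κ (fun w => ‖g w‖ ^ 2)) := h.integrable.integrable_convolution _ h1
  have h3 : Integrable (fun x => ‖mol κ g x‖ ^ 2) := by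
    refine h2.mono' (hc.norm.pow 2).aestronglyMeasurable (Eventually.of_forall fun x => ?_)
    rw [Real.norm_of_nonneg (by positivity)]
    exact mol_sq h hg x
  refine ⟨(memLp_two_iff_integrable_sq_norm hc.aestronglyMeasurable).mpr h3, ?_⟩
  refine (integral_mono h3 h2 fun x => mol_sq h hg x).trans (le_of_eq ?_)
  have h4 := integral_convolution (lsmul ℝ ℝ) h.integrable h1
  refine h4.trans ?_
  rw [h.int]
  simp

/-- Dilation about `x₀`. -/
def dil (x₀ : E3) (s : ℝ) (x : E3) : E3 := x₀ + s • (x - x₀)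

theorem dil_memLp {g : E3 → E} (hc : Continuous g) (hg : MemLp g 2) (x₀ : E3) {s : ℝ}
    (hs : 1 ≤ s) :
    MemLp (fun x => g (dil x₀ s x)) 2 ∧ ∫ x, ‖g (dil x₀ s x)‖ ^ 2 ≤ ∫ x, ‖g x‖ ^ 2 := by
  have hs0 : s ≠ 0 := by positivity
  have h1 : Integrable (fun w => ‖g w‖ ^ 2) :=
    (memLp_two_iff_integrable_sq_norm hg.aestronglyMeasurable).mp hg
  have h2 : Integrable (fun y => ‖g (x₀ + y)‖ ^ 2) := h1.comp_add_left x₀
  have h3 : Integrable (fun y => ‖g (x₀ + s • y)‖ ^ 2) :=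
    (integrable_comp_smul_iff volume (fun y => ‖g (x₀ + y)‖ ^ 2) hs0).mpr h2
  have h4 : Integrable (fun x => ‖g (dil x₀ s x)‖ ^ 2) := h3.comp_sub_right x₀
  have hcd : Continuous (fun x => g (dil x₀ s x)) := by
    unfold dil
    fun_prop
  refine ⟨(memLp_two_iff_integrable_sq_norm hcd.aestronglyMeasurable).mpr h4, ?_⟩
  have e1 : ∫ x, ‖g (dil x₀ s x)‖ ^ 2 = ∫ y, ‖g (x₀ + s • y)‖ ^ 2 :=
    integral_sub_right_eq_self (fun y => ‖g (x₀ + s • y)‖ ^ 2) x₀
  have e2 : ∫ y, ‖g (x₀ + s • y)‖ ^ 2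
      = |(s ^ Module.finrank ℝ E3)⁻¹| • ∫ y, ‖g (x₀ + y)‖ ^ 2 :=
    Measure.integral_comp_smul volume (fun y => ‖g (x₀ + y)‖ ^ 2) s
  have e3 : ∫ y, ‖g (x₀ + y)‖ ^ 2 = ∫ y, ‖g y‖ ^ 2 :=
    integral_add_left_eq_self (fun y => ‖g y‖ ^ 2) x₀
  rw [e1, e2, e3, smul_eq_mul]
  have h5 : |(s ^ Module.finrank ℝ E3)⁻¹| ≤ 1 := by
    rw [abs_of_pos (by positivity)]
    exact inv_le_one_of_one_le₀ (one_le_pow₀ hs)
  have h6 : 0 ≤ ∫ y, ‖g y‖ ^ 2 := integral_nonneg fun _ => by positivity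
  nlinarith [abs_nonneg (s ^ Module.finrank ℝ E3)⁻¹]

theorem eLp_le {E' : Type} [NormedAddCommGroup E'] {f : E3 → E'} {g : E3 → E}
    (hf : MemLp f 2) (hg : MemLp g 2)
    (h : ∫ x, ‖f x‖ ^ 2 ≤ ∫ x, ‖g x‖ ^ 2) : eLpNorm f 2 ≤ eLpNorm g 2 := by
  rw [hf.eLpNorm_eq_integral_rpow_norm (by norm_num) (by norm_num),
    hg.eLpNorm_eq_integral_rpow_norm (by norm_num) (by norm_num)]
  refine ENNReal.ofReal_le_ofReal (Real.rpow_le_rpow (integral_nonneg fun _ => by positivity) ?_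
    (by positivity))
  simpa using h

/-- Mollification followed by dilation. -/
noncomputable def Tm (κ : E3 → ℝ) (x₀ : E3) (s : ℝ) (g : E3 → E) (x : E3) : E :=
  mol κ g (dil x₀ s x)

theorem Tm_memLp (h : Ker κ r) {g : E3 → E} (hg : MemLp g 2) (x₀ : E3) {s : ℝ} (hs : 1 ≤ s) :
    MemLp (Tm κ x₀ s g) 2 ∧ eLpNorm (Tm κ x₀ s g) 2 ≤ eLpNorm g 2 := by
  obtain ⟨h1, h2⟩ := mol_memLp h hg
  obtain ⟨h3, h4⟩ := dil_memLp (mol_continuous h (memLp_loc hg)) h1 x₀ hs
  exact ⟨h3, eLp_le h3 hg (h4.trans h2)⟩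

theorem Ker.conv_exists (h : Ker κ r) {g : E3 → E} (hg : LocallyIntegrable g) (x : E3) :
    Integrable (fun w => κ (x - w) • g w) := by
  have h1 := h.compact.convolutionExists_left (lsmul ℝ ℝ) h.smooth.continuous hg x
  have h2 := (convolutionExistsAt_iff_integrable_swap (L := lsmul ℝ ℝ)).1 h1
  exact h2

theorem mol_sub (h : Ker κ r) {g g' : E3 → E} (hg : LocallyIntegrable g)
    (hg' : LocallyIntegrable g') (x : E3) : mol κ (g - g') x = mol κ g x - mol κ g' x := by
  rw [mol_apply, mol_apply, mol_apply, ← integral_sub (h.conv_exists hg x) (h.conv_exists hg' x)]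
  refine integral_congr_ae (Eventually.of_forall fun w => ?_)
  simp only [Pi.sub_apply, smul_sub]

variable [CompleteSpace E]

/-- Approximation for continuous functions. -/
theorem Tm_cont {φ : E3 → E} (hφ : Continuous φ) (hc : HasCompactSupport φ) (x₀ : E3) {δ : ℝ}
    (hδ : 0 < δ) : ∃ η : ℝ, 0 < η ∧ ∀ (κ : E3 → ℝ) (r s : ℝ), Ker κ r → r ≤ η → 1 ≤ s →
      s ≤ 1 + η → eLpNorm (fun x => Tm κ x₀ s φ x - φ x) 2 ≤ ENNReal.ofReal δ := by
  obtain ⟨M, hM⟩ := hc.isCompact.isBounded.subset_closedBall x₀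
  set M1 : ℝ := max M 1 with hM1
  have hM10 : 1 ≤ M1 := le_max_right _ _
  have hsupp : ∀ x, M1 < dist x x₀ → φ x = 0 := by
    intro x hx
    refine image_eq_zero_of_notMem_tsupport fun hx' => ?_
    have := Metric.mem_closedBall.1 (hM hx')
    have h2 := le_max_left M 1
    linarith
  set N : ℝ := M1 + 2 with hN
  set V : ℝ := (volume.real (Metric.ball x₀ N)) ^ ((2 : ℝ)⁻¹) with hV
  have hV0 : 0 ≤ V := by positivity
  set ε : ℝ := δ / (V + 1) with hε
  have hε0 : 0 < ε := by positivity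
  obtain ⟨δ', hδ', huc⟩ := Metric.uniformContinuous_iff.1
    (hc.uniformContinuous_of_continuous hφ) ε hε0
  refine ⟨min 1 (δ' / (2 * (N + 1))), by positivity, ?_⟩
  intro κ r s hκ hr hs1 hs2
  have hr1 : r ≤ 1 := hr.trans (min_le_left _ _)
  have hη : (min 1 (δ' / (2 * (N + 1)))) * (N + 1) ≤ δ' / 2 := by
    have h1 := min_le_right 1 (δ' / (2 * (N + 1)))
    have hN1 : N + 1 ≠ 0 := by
      have : 0 < N + 1 := by linarith
      exact this.ne'
    have h2 : δ' / (2 * (N + 1)) * (N + 1) = δ' / 2 := by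
      field_simp
    calc _ ≤ δ' / (2 * (N + 1)) * (N + 1) := by gcongr
      _ = _ := h2
  set η : ℝ := min 1 (δ' / (2 * (N + 1))) with hηd
  have hη0 : 0 < η := by positivity
  have hdil : ∀ x, dist (dil x₀ s x) x = (s - 1) * dist x x₀ := by
    intro x
    have e : dil x₀ s x - x = (s - 1) • (x - x₀) := by
      unfold dil
      module
    rw [dist_eq_norm, e, norm_smul, Real.norm_of_nonneg (by linarith), dist_eq_norm]
  have hdil2 : ∀ x, dist (dil x₀ s x) x₀ = s * dist x x₀ := by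
    intro x
    have e : dil x₀ s x - x₀ = s • (x - x₀) := by
      unfold dil
      module
    rw [dist_eq_norm, e, norm_smul, Real.norm_of_nonneg (by linarith), dist_eq_norm]
  have hout : ∀ x, x ∉ Metric.ball x₀ N → Tm κ x₀ s φ x - φ x = 0 := by
    intro x hx
    rw [Metric.mem_ball, not_lt] at hx
    have h1 : φ x = 0 := hsupp x (by linarith)
    have h2 : dist (mol κ φ (dil x₀ s x)) 0 ≤ 0 := by
      refine dist_convolution_le le_rfl hκ.supp hκ.nonneg hκ.int hφ.aestronglyMeasurable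
        fun y hy => ?_
      have h3 : φ y = 0 := by
        refine hsupp y ?_
        have h4 := Metric.mem_ball.1 hy
        have h5 := dist_triangle (dil x₀ s x) y x₀
        rw [hdil2, dist_comm] at h5
        have h6 : N ≤ s * dist x x₀ := by nlinarith
        rw [dist_comm] at h4
        have h7 : dist y (dil x₀ s x) = dist (dil x₀ s x) y := dist_comm _ _
        have h8 := dist_comm x₀ y
        have h9 := dist_triangle_left x₀ (dil x₀ s x) y
        have h10 : dist (dil x₀ s x) x₀ ≤ dist (dil x₀ s x) y + dist y x₀ := dist_triangle _ _ _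
        rw [hdil2] at h10
        linarith
      rw [h3, dist_self]
    have h5 : mol κ φ (dil x₀ s x) = 0 := by
      have := le_antisymm h2 dist_nonneg
      exact dist_eq_zero.1 this
    show mol κ φ (dil x₀ s x) - φ x = 0
    rw [h5, h1, sub_zero]
  have hin : ∀ x ∈ Metric.ball x₀ N, ‖Tm κ x₀ s φ x - φ x‖ ≤ ε := by
    intro x hx
    rw [Metric.mem_ball] at hx
    rw [← dist_eq_norm]
    refine dist_convolution_le hε0.le hκ.supp hκ.nonneg hκ.int hφ.aestronglyMeasurable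
      fun y hy => ?_
    refine (huc ?_).le
    have h4 := Metric.mem_ball.1 hy
    have h5 := dist_triangle y (dil x₀ s x) x
    rw [hdil] at h5
    have h6 : (s - 1) * dist x x₀ ≤ η * N := by
      have h7 : s - 1 ≤ η := by linarith
      have h8 : 0 ≤ dist x x₀ := dist_nonneg
      calc (s - 1) * dist x x₀ ≤ η * dist x x₀ := by gcongr
        _ ≤ η * N := by gcongr
    nlinarith
  have hsub : Function.support (fun x => Tm κ x₀ s φ x - φ x) ⊆ Metric.ball x₀ N := by
    intro x hx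
    by_contra hcon
    exact hx (hout x hcon)
  rw [← eLpNorm_restrict_eq_of_support_subset hsub]
  refine (eLpNorm_le_of_ae_bound (C := ε) ?_).trans ?_
  · filter_upwards [ae_restrict_mem measurableSet_ball] with x hx
    exact hin x hx
  · have hfin : volume (Metric.ball x₀ N) ≠ ⊤ := measure_ball_lt_top.ne
    have e1 : (volume.restrict (Metric.ball x₀ N)) univ ^ ((2 : ℝ≥0∞).toReal)⁻¹
        = ENNReal.ofReal V := by
      rw [Measure.restrict_apply_univ, hV, Measure.real, ENNReal.toReal_ofNat,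
        ENNReal.toReal_rpow, ENNReal.ofReal_toReal]
      exact (ENNReal.rpow_lt_top_of_nonneg (by positivity) hfin).ne
    rw [e1, ← ENNReal.ofReal_mul hV0]
    refine ENNReal.ofReal_le_ofReal ?_
    rw [hε, mul_div_assoc', div_le_iff₀ (by positivity)]
    nlinarith

/-- Approximation for square integrable functions. -/
theorem Tm_lim {g : E3 → E} (hg : MemLp g 2) (x₀ : E3) {δ : ℝ} (hδ : 0 < δ) :
    ∃ η : ℝ, 0 < η ∧ ∀ (κ : E3 → ℝ) (r s : ℝ), Ker κ r → r ≤ η → 1 ≤ s → s ≤ 1 + η →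
      eLpNorm (fun x => Tm κ x₀ s g x - g x) 2 ≤ ENNReal.ofReal δ := by
  obtain ⟨φ, hφ1, hφ2, hφ3, hφ4⟩ := hg.exists_hasCompactSupport_eLpNorm_sub_le (by norm_num)
    (ε := ENNReal.ofReal (δ / 4)) (by simpa using by positivity)
  obtain ⟨η, hη, h⟩ := Tm_cont hφ3 hφ1 x₀ (show 0 < δ / 2 by positivity)
  refine ⟨η, hη, fun κ r s hκ hr hs1 hs2 => ?_⟩
  have hd : MemLp (g - φ) 2 := hg.sub hφ4
  obtain ⟨h1, h2⟩ := Tm_memLp hκ hd x₀ hs1
  have e : (fun x => Tm κ x₀ s g x - g x)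
      = (Tm κ x₀ s (g - φ) - (g - φ)) + fun x => Tm κ x₀ s φ x - φ x := by
    funext x
    simp only [Pi.add_apply, Pi.sub_apply]
    have h3 : Tm κ x₀ s (g - φ) x = Tm κ x₀ s g x - Tm κ x₀ s φ x :=
      mol_sub hκ (memLp_loc hg) (memLp_loc hφ4) _
    rw [h3]
    abel
  rw [e]
  have hTφ := (Tm_memLp hκ hφ4 x₀ hs1).1
  have h4 : AEStronglyMeasurable (fun x => Tm κ x₀ s φ x - φ x) volume :=
    (hTφ.sub hφ4).aestronglyMeasurable
  refine (eLpNorm_add_le (h1.sub hd).aestronglyMeasurable h4 (by norm_num)).trans ?_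
  have h5 : eLpNorm (Tm κ x₀ s (g - φ) - (g - φ)) 2 volume ≤ ENNReal.ofReal (δ / 2) := by
    refine (eLpNorm_sub_le h1.aestronglyMeasurable hd.aestronglyMeasurable (by norm_num)).trans ?_
    have e2 : ENNReal.ofReal (δ / 2) = ENNReal.ofReal (δ / 4) + ENNReal.ofReal (δ / 4) := by
      rw [← ENNReal.ofReal_add (by positivity) (by positivity)]
      congr 1
      ring
    rw [e2]
    exact add_le_add (h2.trans hφ2) hφ2
  have e3 : ENNReal.ofReal δ = ENNReal.ofReal (δ / 2) + ENNReal.ofReal (δ / 2) := by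
    rw [← ENNReal.ofReal_add (by positivity) (by positivity)]
    congr 1
    ring
  rw [e3]
  exact add_le_add h5 (h κ r s hκ hr hs1 hs2)

end Pool.Agent.H303.DC
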