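import Pool.Agent.H303.DC.Moll

/-!
Fields of `H¹_{0,σ}(D)` vanishing outside of a set `K` which is mapped into its interior by
contractions belong to `H¹_{0,σ}(int K)`.
-/

set_option autoImplicit false

open MeasureTheory Set Filter Topology
open scoped InnerProductSpace ENNReal ContDiff Convolution

namespace Pool.Agent.H303.DC

open H772R2.NS Pool.Agent.H303.DS
open ContinuousLinearMap (lsmul)

variable {D : Set E3} {κ : E3 → ℝ} {r : ℝ}

theorem mol_contDiff (h : Ker κ r) {g : E3 → E3} (hg : LocallyIntegrable g) :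
    ContDiff ℝ ∞ (mol κ g) :=
  h.compact.contDiff_convolution_left _ h.smooth hg

theorem one_le_infty : (1 : WithTop ℕ∞) ≤ ((⊤ : ℕ∞) : WithTop ℕ∞) := by exact_mod_cast le_top

/-- coordinates -/
noncomputable def pr3 (i : Fin 3) : E3 →L[ℝ] ℝ := EuclideanSpace.proj i

/-- coordinates -/
noncomputable def prM (q : Fin 3 × Fin 3) : M3 →L[ℝ] ℝ := EuclideanSpace.proj q

@[simp] theorem pr3_apply (i : Fin 3) (x : E3) : pr3 i x = x i := rfl

@[simp] theorem prM_apply (q : Fin 3 × Fin 3) (x : M3) : prM q x = x q := rfl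

theorem mol_jac (h : Ker κ r) {g : E3 → E3} (hg : LocallyIntegrable g) (x : E3) (i j : Fin 3) :
    jac (mol κ g) x (i, j) = ∫ w, fderiv ℝ κ (x - w) (EuclideanSpace.single j 1) * g w i := by
  have hκ1 : ContDiff ℝ 1 κ := h.smooth.of_le one_le_infty
  have h1 := h.compact.hasFDerivAt_convolution_left (lsmul ℝ ℝ) hκ1 hg x
  have h2 : fderiv ℝ (mol κ g) x = MeasureTheory.convolution (fderiv ℝ κ) g
      ((lsmul ℝ ℝ : ℝ →L[ℝ] E3 →L[ℝ] E3).precompL E3) volume x := h1.fderiv
  have h3 : Integrable (fun t => ((lsmul ℝ ℝ : ℝ →L[ℝ] E3 →L[ℝ] E3).precompL E3)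
      (fderiv ℝ κ (x - t)) (g t)) := by
    have h4 := (h.compact.fderiv ℝ).convolutionExists_left
      ((lsmul ℝ ℝ : ℝ →L[ℝ] E3 →L[ℝ] E3).precompL E3) (hκ1.continuous_fderiv one_ne_zero) hg x
    exact (convolutionExistsAt_iff_integrable_swap
      (L := (lsmul ℝ ℝ : ℝ →L[ℝ] E3 →L[ℝ] E3).precompL E3)).1 h4
  show (fderiv ℝ (mol κ g) x (EuclideanSpace.single j 1)) i = _
  rw [h2, convolution_eq_swap]
  have h5 : (∫ t, ((lsmul ℝ ℝ : ℝ →L[ℝ] E3 →L[ℝ] E3).precompL E3) (fderiv ℝ κ (x - t)) (g t))
      (EuclideanSpace.single j 1) = ∫ t, ((lsmul ℝ ℝ : ℝ →L[ℝ] E3 →L[ℝ] E3).precompL E3)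
        (fderiv ℝ κ (x - t)) (g t) (EuclideanSpace.single j 1) :=
    ContinuousLinearMap.integral_apply h3 _
  rw [h5]
  have h6 : Integrable (fun t => ((lsmul ℝ ℝ : ℝ →L[ℝ] E3 →L[ℝ] E3).precompL E3)
        (fderiv ℝ κ (x - t)) (g t) (EuclideanSpace.single j 1)) := h3.apply_continuousLinearMap _
  have h7 := (pr3 i).integral_comp_comm h6
  refine h7.symm.trans (integral_congr_ae (Eventually.of_forall fun w => ?_))
  simp [ContinuousLinearMap.precompL_apply]

theorem mol_jac_test (h : Ker κ r) {φ : E3 → E3} (hφ : ContDiff ℝ ∞ φ) (hc : HasCompactSupport φ)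
    (x : E3) (i j : Fin 3) : jac (mol κ φ) x (i, j) = mol κ (jac φ) x (i, j) := by
  have hφ1 : ContDiff ℝ 1 φ := hφ.of_le one_le_infty
  have hκl : LocallyIntegrable κ := h.smooth.continuous.locallyIntegrable
  have h1 := hc.hasFDerivAt_convolution_right (lsmul ℝ ℝ) hκl hφ1 x
  have h2 : fderiv ℝ (mol κ φ) x = MeasureTheory.convolution κ (fderiv ℝ φ)
      ((lsmul ℝ ℝ : ℝ →L[ℝ] E3 →L[ℝ] E3).precompR E3) volume x := h1.fderiv
  have h3 : Integrable (fun t => ((lsmul ℝ ℝ : ℝ →L[ℝ] E3 →L[ℝ] E3).precompR E3)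
      (κ (x - t)) (fderiv ℝ φ t)) := by
    have h4 := (hc.fderiv ℝ).convolutionExists_right
      ((lsmul ℝ ℝ : ℝ →L[ℝ] E3 →L[ℝ] E3).precompR E3) hκl (hφ1.continuous_fderiv one_ne_zero) x
    exact (convolutionExistsAt_iff_integrable_swap
      (L := (lsmul ℝ ℝ : ℝ →L[ℝ] E3 →L[ℝ] E3).precompR E3)).1 h4
  show (fderiv ℝ (mol κ φ) x (EuclideanSpace.single j 1)) i = _
  rw [h2, convolution_eq_swap]
  have h5 : (∫ t, ((lsmul ℝ ℝ : ℝ →L[ℝ] E3 →L[ℝ] E3).precompR E3) (κ (x - t)) (fderiv ℝ φ t))
      (EuclideanSpace.single j 1) = ∫ t, ((lsmul ℝ ℝ : ℝ →L[ℝ] E3 →L[ℝ] E3).precompR E3)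
        (κ (x - t)) (fderiv ℝ φ t) (EuclideanSpace.single j 1) :=
    ContinuousLinearMap.integral_apply h3 _
  rw [h5]
  have h6 : Integrable (fun t => ((lsmul ℝ ℝ : ℝ →L[ℝ] E3 →L[ℝ] E3).precompR E3)
        (κ (x - t)) (fderiv ℝ φ t) (EuclideanSpace.single j 1)) := h3.apply_continuousLinearMap _
  have h7 := (pr3 i).integral_comp_comm h6
  have h8 : Integrable (fun w => κ (x - w) • jac φ w) :=
    h.conv_exists ((continuous_jac hφ).locallyIntegrable) x
  have h9 := (prM (i, j)).integral_comp_comm h8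
  rw [mol_apply]
  refine h7.symm.trans (Eq.trans ?_ h9)
  refine integral_congr_ae (Eventually.of_forall fun w => ?_)
  simp [ContinuousLinearMap.precompR_apply, jac]

theorem memLp_fn {E : Type} [NormedAddCommGroup E] (hD : MeasurableSet D)
    (v : Lp E 2 ((volume : Measure E3).restrict D)) : MemLp (D.indicator v) 2 (volume : Measure E3) :=
  (memLp_indicator_iff_restrict hD).mpr (Lp.memLp v)

/-- The entries of the mollification are continuous functions in `L²(D)`. -/
theorem cont_mol (h : Ker κ r) (hD : MeasurableSet D) (x : E3) (q : Fin 3 × Fin 3) :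
    Continuous (fun z : L2M D => mol κ (D.indicator z) x q) := by
  have hb : MemLp (fun w => κ (x - w) • (EuclideanSpace.single q (1 : ℝ) : M3)) 2
      ((volume : Measure E3).restrict D) := by
    refine MemLp.restrict _ ?_
    have hc : Continuous (fun w => κ (x - w) • (EuclideanSpace.single q (1 : ℝ) : M3)) :=
      (h.smooth.continuous.comp (continuous_const.sub continuous_id)).smul continuous_const
    refine hc.memLp_of_hasCompactSupport ?_
    have h1 : HasCompactSupport (fun w => κ (x - w)) :=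
      h.compact.comp_homeomorph (Homeomorph.subLeft x)
    exact h1.smul_right
  have e : (fun z : L2M D => mol κ (D.indicator z) x q) = fun z => ⟪hb.toLp _, z⟫_ℝ := by
    funext z
    rw [mol_apply, L2.inner_def]
    have h8 : Integrable (fun w => κ (x - w) • D.indicator (z : E3 → M3) w) :=
      h.conv_exists (memLp_loc (memLp_fn hD z)) x
    have h9 := (prM q).integral_comp_comm h8
    refine h9.symm.trans ?_
    have e1 : (fun w => (prM q)
        (κ (x - w) • D.indicator (z : E3 → M3) w))
        = D.indicator (fun w => κ (x - w) * z w q) := by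
      funext w
      by_cases hw : w ∈ D
      · simp [indicator_of_mem hw]
      · simp [indicator_of_notMem hw]
    rw [e1, integral_indicator hD]
    refine integral_congr_ae ?_
    filter_upwards [hb.coeFn_toLp] with w hw
    rw [hw, real_inner_smul_left, EuclideanSpace.inner_single_left]
    simp
  rw [e]
  exact continuous_const.inner continuous_id

theorem cont_jac_mol (h : Ker κ r) (hD : MeasurableSet D) (x : E3) (q : Fin 3 × Fin 3) :
    Continuous (fun v : L2V D => jac (mol κ (D.indicator v)) x q) := by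
  have hκ1 : ContDiff ℝ 1 κ := h.smooth.of_le one_le_infty
  have hb : MemLp (fun w => fderiv ℝ κ (x - w) (EuclideanSpace.single q.2 1) •
      (EuclideanSpace.single q.1 (1 : ℝ) : E3)) 2 ((volume : Measure E3).restrict D) := by
    refine MemLp.restrict _ ?_
    have hc0 : Continuous (fun w => fderiv ℝ κ (x - w) (EuclideanSpace.single q.2 1)) :=
      ((hκ1.continuous_fderiv one_ne_zero).comp (continuous_const.sub continuous_id)).clm_apply
        continuous_const
    refine (hc0.smul continuous_const).memLp_of_hasCompactSupport ?_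
    have h1 : HasCompactSupport (fun w => fderiv ℝ κ (x - w)) :=
      (h.compact.fderiv ℝ).comp_homeomorph (Homeomorph.subLeft x)
    have h2 : HasCompactSupport (fun w => fderiv ℝ κ (x - w) (EuclideanSpace.single q.2 1)) :=
      h1.comp_left (g := fun L : E3 →L[ℝ] ℝ => L (EuclideanSpace.single q.2 1)) rfl
    exact h2.smul_right
  have e : (fun v : L2V D => jac (mol κ (D.indicator v)) x q) = fun v => ⟪hb.toLp _, v⟫_ℝ := by
    funext v
    have h0 := mol_jac h (memLp_loc (memLp_fn hD v)) x q.1 q.2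
    refine h0.trans ?_
    rw [L2.inner_def]
    have e1 : (fun w => fderiv ℝ κ (x - w) (EuclideanSpace.single q.2 1) *
        D.indicator (v : E3 → E3) w q.1)
        = D.indicator (fun w => fderiv ℝ κ (x - w) (EuclideanSpace.single q.2 1) * v w q.1) := by
      funext w
      by_cases hw : w ∈ D
      · simp [indicator_of_mem hw]
      · simp [indicator_of_notMem hw]
    rw [e1, integral_indicator hD]
    refine integral_congr_ae ?_
    filter_upwards [hb.coeFn_toLp] with w hw
    rw [hw, real_inner_smul_left, EuclideanSpace.inner_single_left]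
    simp
  rw [e]
  exact continuous_const.inner continuous_id

theorem graph_ind {C : Set (L2V D × L2M D)} (hC : IsClosed C)
    (h : ∀ p ∈ preW D, p ∈ C) {p : L2V D × L2M D} (hp : p ∈ graphW D) : p ∈ C := by
  have hp' : p ∈ closure (preW D : Set (L2V D × L2M D)) := by
    have := hp
    unfold graphW at this
    rwa [← SetLike.mem_coe, Submodule.topologicalClosure_coe] at this
  exact closure_minimal (fun q hq => h q hq) hC hp'

theorem mol_congr {E : Type} [NormedAddCommGroup E] [NormedSpace ℝ E] {g g' : E3 → E}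
    (hgg : g =ᵐ[volume] g') : mol κ g = mol κ g' := by
  funext x
  rw [mol_apply, mol_apply]
  refine integral_congr_ae ?_
  filter_upwards [hgg] with w hw
  rw [hw]

theorem ind_test {E : Type} [NormedAddCommGroup E] (hD : MeasurableSet D)
    {v : E3 → E} {φ : E3 → E} (h : v =ᵐ[volume.restrict D] φ)
    (h0 : ∀ x, x ∉ D → φ x = 0) : D.indicator v =ᵐ[volume] φ := by
  have h1 : ∀ᵐ x ∂(volume : Measure E3), x ∈ D → v x = φ x := (ae_restrict_iff' hD).1 h
  filter_upwards [h1] with x hx
  by_cases hxD : x ∈ D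
  · rw [indicator_of_mem hxD, hx hxD]
  · rw [indicator_of_notMem hxD, h0 x hxD]

/-- The gradient of the mollification of an element of `V` is the mollification of the gradient. -/
theorem jac_mol (h : Ker κ r) (hD : MeasurableSet D) {p : L2V D × L2M D} (hp : p ∈ graphW D)
    (x : E3) : jac (mol κ (D.indicator p.1)) x = mol κ (D.indicator p.2) x := by
  ext q
  refine graph_ind (C := {p | jac (mol κ (D.indicator p.1)) x q = mol κ (D.indicator p.2) x q})
    (isClosed_eq ((cont_jac_mol h hD x q).comp continuous_fst)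
      ((cont_mol h hD x q).comp continuous_snd)) (fun p hp => ?_) hp
  obtain ⟨φ, h1, h2, h3⟩ := hp
  show jac (mol κ (D.indicator p.1)) x q = mol κ (D.indicator p.2) x q
  rw [mol_congr (ind_test hD h2 fun x hx => test_zero h1 hx),
    mol_congr (ind_test hD h3 fun x hx => jac_test_zero h1 hx)]
  exact mol_jac_test h h1.smooth h1.compact x q.1 q.2

/-- The trace of the mollification of the gradient vanishes. -/
theorem trace_mol (h : Ker κ r) (hD : MeasurableSet D) {p : L2V D × L2M D} (hp : p ∈ graphW D)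
    (x : E3) : ∑ i, mol κ (D.indicator p.2) x (i, i) = 0 := by
  refine graph_ind (C := {p | ∑ i, mol κ (D.indicator p.2) x (i, i) = 0})
    (isClosed_eq (continuous_finsetSum _ fun i _ => (cont_mol h hD x (i, i)).comp continuous_snd)
      continuous_const) (fun p hp => ?_) hp
  obtain ⟨φ, h1, h2, h3⟩ := hp
  show ∑ i, mol κ (D.indicator p.2) x (i, i) = 0
  rw [mol_congr (ind_test hD h3 fun x hx => jac_test_zero h1 hx), mol_apply]
  have h8 : Integrable (fun w => κ (x - w) • jac φ w) :=
    h.conv_exists ((continuous_jac h1.smooth).locallyIntegrable) x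
  have h9 : ∀ i : Fin 3, (∫ w, κ (x - w) • jac φ w) (i, i)
      = ∫ w, κ (x - w) * jac φ w (i, i) := by
    intro i
    have := (prM (i, i)).integral_comp_comm h8
    refine this.symm.trans (integral_congr_ae (Eventually.of_forall fun w => ?_))
    simp
  have hi : ∀ i : Fin 3, Integrable (fun w => κ (x - w) * jac φ w (i, i)) := by
    intro i
    have := (prM (i, i)).integrable_comp h8
    refine this.congr (Eventually.of_forall fun w => ?_)
    simp
  simp only [h9]
  rw [← integral_finset_sum _ fun i _ => hi i]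
  have : (fun w => ∑ i : Fin 3, κ (x - w) * jac φ w (i, i)) = fun _ => (0 : ℝ) := by
    funext w
    rw [← Finset.mul_sum, h1.divfree w, mul_zero]
  rw [this]
  simp

end Pool.Agent.H303.DC
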